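import Pool.Agent.Lib.MP_a150d7_gt.SMain
import Pool.Agent.Lib.MP_a150d7_gt.SDefs
import Pool.Agent.Lib.ThZ.Z2
import Pool.Agent.Lib.ThZ.Mg.G002
import Pool.Agent.Lib.ThZ.Mg.G001

section

open Module
open scoped InnerProductSpace

namespace Pool.Agent.Lib.MP_a150d7_gt

/-- Main theorem for Lie algebras. -/
theorem s_main_lie {𝔤 : Type*} [LieRing 𝔤] [LieAlgebra ℝ 𝔤] [FiniteDimensional ℝ 𝔤] [Nontrivial 𝔤]
    (g : 𝔤 →ₗ[ℝ] 𝔤 →ₗ[ℝ] ℝ) (J : 𝔤 →ₗ[ℝ] 𝔤) (hgJ : IsHermitianStructure g J)
    (hNS : ∀ k, jChain J (k + 1) = jChain J k → jChain J k ≠ ⊥ →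
      siegelPart J (jChain J k) ≠ jChain J k)
    (D : 𝔤 →ₗ[ℝ] 𝔤 →ₗ[ℝ] 𝔤) (hD : IsChernConnection g J D)
    (c : ℝ) (hsign : 0 ≤ c ∨ (LieAlgebra.IsSolvable 𝔤 ∧
      ∀ x : 𝔤, LinearMap.trace ℝ 𝔤 (LieAlgebra.ad ℝ 𝔤 x) = 0))
    (hc : ∀ x, x ≠ 0 → holSec g J D x = c) :
    c = 0 ∧ ∀ x y z, curv D x y z = 0 := by
  let core : InnerProductSpace.Core ℝ 𝔤 :=
    { inner := fun x y => g x y
      conj_inner_symm := fun x y => by simp only [conj_trivial]; exact hgJ.symm y x
      re_inner_nonneg := fun x => by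
        by_cases hx : x = 0
        · subst hx; simp
        · exact (hgJ.pos x hx).le
      add_left := fun x y z => by simp only [map_add, LinearMap.add_apply]
      smul_left := fun x y r => by simp only [map_smul, LinearMap.smul_apply, smul_eq_mul,
        conj_trivial]
      definite := fun x hx => by
        by_contra hne
        exact absurd hx (hgJ.pos x hne).ne' }
  let i1 : NormedAddCommGroup 𝔤 := core.toNormedAddCommGroup
  let i2 : InnerProductSpace ℝ 𝔤 := InnerProductSpace.ofCore core.toCore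
  have hin : ∀ x y : 𝔤, ⟪x, y⟫_ℝ = g x y := fun x y => rfl
  let br : 𝔤 →ₗ[ℝ] 𝔤 →ₗ[ℝ] 𝔤 := (LieAlgebra.ad ℝ 𝔤 : 𝔤 →ₗ[ℝ] Module.End ℝ 𝔤)
  have hbr : ∀ x y, br x y = ⁅x, y⁆ := fun x y => rfl
  have hH : HermLie br J :=
    { self := fun x => by rw [hbr, lie_self]
      jacobi := fun x y z => by rw [hbr, hbr, hbr, hbr, hbr, hbr, leibniz_lie]
      JJ := hgJ.sq_J
      isoJ := fun x y => by rw [hin, hin, hgJ.invariant]
      integ := fun x y => by
        rw [hbr, hbr, hbr, hbr, map_add, ← add_assoc]; exact hgJ.integrable x y }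
  have hT : ∀ x y, D (J x) y - D y (J x) - br (J x) y = D x (J y) - D (J y) x - br x (J y) :=
    fun x y => hD.torsion_type x y
  have hn : ∀ x : 𝔤, ‖x‖ ^ 4 = (g x x) ^ 2 := by
    intro x
    have : ‖x‖ ^ 2 = g x x := by rw [← hin, real_inner_self_eq_norm_sq]
    rw [← this]; ring
  have hc' : ∀ x, ⟪D x (D (J x) (J x)) - D (J x) (D x (J x)) - D (br x (J x)) (J x), x⟫_ℝ =
      c * ‖x‖ ^ 4 := by
    intro x
    rw [hn]
    by_cases hx : x = 0
    · subst hx; simp
    · have h1 := hc x hx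
      unfold holSec at h1
      have h2 := (hgJ.pos x hx).ne'
      rw [div_eq_iff (pow_ne_zero 2 h2)] at h1
      exact h1
  -- dictionary
  have hbs : ∀ U : Submodule ℝ 𝔤, bs br U U = derSpan U := fun U => rfl
  have hch : ∀ k, Jch br J k = jChain J k := by
    intro k
    induction k with
    | zero => rfl
    | succ k ih =>
      show jd br J (Jch br J k) = _
      rw [ih]; rfl
  have hww : ∀ U : Submodule ℝ 𝔤, ww br J U = siegelPart J U := by
    intro U
    apply le_antisymm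
    · refine sup_le (sup_le le_sup_left (le_sup_left.trans le_sup_right)) ?_
      rw [Submodule.map_le_iff_le_comap]
      refine sup_le ?_ ?_
      · intro v hv
        refine Submodule.mem_sup_left ⟨hv.2, ?_⟩
        show J (J v) ∈ derSpan U
        rw [hgJ.sq_J]
        exact Submodule.neg_mem _ hv.1
      · intro v hv
        exact Submodule.mem_sup_right (Submodule.mem_sup_right (Submodule.mem_map_of_mem hv))
    · refine sup_le (le_sup_left.trans le_sup_left) (sup_le (le_sup_right.trans le_sup_left) ?_)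
      exact (Submodule.map_mono le_sup_right).trans le_sup_right
  have hNS' : ∀ k, Jch br J (k + 1) = Jch br J k → Jch br J k ≠ ⊥ →
      ww br J (Jch br J k) ≠ Jch br J k := by
    intro k
    rw [hch, hch, hww]
    exact hNS k
  have hsign' : 0 ≤ c ∨ (Solv br ∧ ∀ x, LinearMap.trace ℝ 𝔤 (br x) = 0) := by
    rcases hsign with h1 | ⟨h1, h2⟩
    · exact Or.inl h1
    · refine Or.inr ⟨?_, fun x => h2 x⟩
      obtain ⟨k, hk⟩ := (LieAlgebra.isSolvable_iff ℝ 𝔤).1 h1
      refine ⟨k, ?_⟩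
      have h3 : ∀ k, Dser br k ≤ (LieAlgebra.derivedSeries ℝ 𝔤 k).toSubmodule := by
        intro k
        induction k with
        | zero => exact le_top
        | succ k ih =>
          refine bs_le ?_
          intro a ha b hb
          rw [LieAlgebra.derivedSeries_def, LieAlgebra.derivedSeriesOfIdeal_succ]
          exact LieSubmodule.lie_mem_lie (ih ha) (ih hb)
      rw [eq_bot_iff]
      refine (h3 k).trans ?_
      rw [hk]
      exact le_rfl
  exact hH.s_main hNS' (D := D) (fun x y z => hD.metric x y z) hD.complex hT hsign' hc'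

/-- The chain condition of `s_main_lie` holds for all 2-step solvable Lie algebras. -/
theorem chain_of_metabelian {𝔤 : Type*} [LieRing 𝔤] [LieAlgebra ℝ 𝔤] (J : 𝔤 →ₗ[ℝ] 𝔤)
    (hsolv : ∀ a b c d : 𝔤, ⁅⁅a, b⁆, ⁅c, d⁆⁆ = 0) (C : Submodule ℝ 𝔤) (hC : C ≠ ⊥) :
    siegelPart J C ≠ C := by
  intro h
  have h0 : ∀ U : Submodule ℝ 𝔤, derSpan (derSpan U) = ⊥ := by
    intro U
    rw [eq_bot_iff]
    refine Submodule.span_le.2 ?_
    rintro _ ⟨a, ha, b, hb, rfl⟩
    show ⁅a, b⁆ ∈ (⊥ : Submodule ℝ 𝔤)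
    rw [Submodule.mem_bot]
    refine Submodule.span_induction (p := fun a _ => ⁅a, b⁆ = 0) ?_ ?_ ?_ ?_ ha
    · rintro _ ⟨x, _, y, _, rfl⟩
      refine Submodule.span_induction (p := fun b _ => ⁅⁅x, y⁆, b⁆ = 0) ?_ ?_ ?_ ?_ hb
      · rintro _ ⟨z, _, w, _, rfl⟩
        exact hsolv x y z w
      · exact lie_zero _
      · intro u v _ _ hu hv; rw [lie_add, hu, hv, add_zero]
      · intro r u _ hu; rw [lie_smul, hu, smul_zero]
    · exact zero_lie _
    · intro u v _ _ hu hv; rw [add_lie, hu, hv, add_zero]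
    · intro r u _ hu; rw [smul_lie, hu, smul_zero]
  have h1 : C ≤ derSpan C := by
    rw [← h]
    conv_lhs => rw [siegelPart, h0, Submodule.map_bot, sup_bot_eq, sup_bot_eq]
    rw [h]
    exact inf_le_left
  have hmono : ∀ U V : Submodule ℝ 𝔤, U ≤ V → derSpan U ≤ derSpan V := by
    intro U V hUV
    refine Submodule.span_mono ?_
    rintro _ ⟨a, ha, b, hb, rfl⟩
    exact ⟨a, hUV ha, b, hUV hb, rfl⟩
  apply hC
  rw [eq_bot_iff, ← h0 C]
  exact h1.trans (hmono _ _ h1)

end Pool.Agent.Lib.MP_a150d7_gt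
end

section

/-! # Cocycles -/

open MvPolynomial Matrix Finset

namespace Pool.Agent.Lib.ThZ

variable {n : ℕ}

theorem Data.Cocycle.add {d : Data n} {A A' : Matrix (Fin n) (Fin n) (P n)} (h : d.Cocycle A)
    (h' : d.Cocycle A') : d.Cocycle (A + A') := by
  intro y y' z
  have h1 := h y y' z
  have h2 := h' y y' z
  simp only [Matrix.add_apply, map_add, mul_add, Finset.sum_add_distrib]
  linear_combination h1 + h2

theorem Data.Cocycle.smul {d : Data n} {A : Matrix (Fin n) (Fin n) (P n)} (h : d.Cocycle A)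
    (s : ℂ) : d.Cocycle (s • A) := by
  intro y y' z
  have h1 := h y y' z
  have hS : ∀ (M : Matrix (Fin n) (Fin n) ℂ) (f : P n), hat M (s • f) = s • hat M f :=
    fun M f => (hat M).map_smul s f
  simp only [Matrix.smul_apply, hS, mul_smul_comm, ← Finset.smul_sum, ← smul_sub, ← smul_add]
  rw [h1]

/-- `∂∂ = 0` (`hat_comm`, `d.rep`, `hat_sum`; `hat M` kills constants). -/
theorem Data.cocycle_dd (d : Data n) (g : Fin n → P n) : d.Cocycle (d.dd g) := by
  intro y y' z
  have hC : ∀ (M : Matrix (Fin n) (Fin n) ℂ) (a : ℂ) (f : P n),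
      hat M (C a * f) = C a * hat M f := by
    intro M a f
    rw [← smul_eq_C_mul, (hat M).map_smul, smul_eq_C_mul]
  have hprod : ∀ (M N : Matrix (Fin n) (Fin n) ℂ),
      ∑ m, C (M z m) * (∑ l, C (N m l) * g l) = ∑ l, C ((M * N) z l) * g l := by
    intro M N
    simp only [Finset.mul_sum]
    rw [Finset.sum_comm]
    refine Finset.sum_congr rfl fun l _ => ?_
    rw [Matrix.mul_apply, map_sum, Finset.sum_mul]
    refine Finset.sum_congr rfl fun m _ => ?_
    rw [map_mul, mul_assoc]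
  have h1 := hat_comm (d.D y) (d.D y') (g z)
  rw [d.rep, hat_sum] at h1
  have h2 : ∑ l, C ((d.D y * d.D y') z l) * g l - ∑ l, C ((d.D y' * d.D y) z l) * g l =
      ∑ k, C (d.B y y' k) * ∑ l, C (d.D k z l) * g l := by
    rw [← Finset.sum_sub_distrib]
    simp only [Finset.mul_sum]
    rw [Finset.sum_comm]
    refine Finset.sum_congr rfl fun l _ => ?_
    rw [← sub_mul, ← map_sub, ← Matrix.sub_apply, d.rep, Matrix.sum_apply, map_sum,
      Finset.sum_mul]
    refine Finset.sum_congr rfl fun k _ => ?_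
    rw [Matrix.smul_apply, smul_eq_mul, map_mul, mul_assoc]
  rw [← hprod, ← hprod] at h2
  simp only [Data.dd, map_add, map_sum, hC, mul_add, Finset.sum_add_distrib]
  linear_combination h1 + h2

end Pool.Agent.Lib.ThZ
end

section

/-! # Part (II): integration by parts -/

open MvPolynomial Matrix Finset

namespace Pool.Agent.Lib.ThZ

variable {n : ℕ}

private theorem Z11_alg {R : Type*} [CommRing R] [Algebra ℂ R]
    (δ : Fin n → Derivation ℂ R R) (D : Fin n → Matrix (Fin n) (Fin n) R)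
    (W : Matrix (Fin n) (Fin n) R) (g : Fin n → R) :
    ∑ y, ∑ z, (δ y (g z) + ∑ m, D y z m * g m) * W z y =
      ∑ y, ∑ z, δ y (g z * W z y) -
        ∑ z, g z * ∑ y, (δ y (W z y) - ∑ z', D y z' z * W z' y) := by
  have h2 : ∑ z, g z * ∑ y, (δ y (W z y) - ∑ z', D y z' z * W z' y) =
      ∑ y, ∑ z, g z * δ y (W z y) - ∑ y, ∑ z, (∑ m, D y z m * g m) * W z y := by
    have e1 : ∑ y, ∑ z, g z * δ y (W z y) = ∑ z, ∑ y, g z * δ y (W z y) := Finset.sum_comm
    have e2 : ∑ y, ∑ z, (∑ m, D y z m * g m) * W z y =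
        ∑ z, ∑ y, g z * ∑ z', D y z' z * W z' y := by
      rw [Finset.sum_comm (f := fun z y => g z * ∑ z', D y z' z * W z' y)]
      refine Finset.sum_congr rfl fun y _ => ?_
      have e3 : ∑ z, (∑ m, D y z m * g m) * W z y = ∑ z, ∑ m, g m * (D y z m * W z y) := by
        refine Finset.sum_congr rfl fun z _ => ?_
        rw [Finset.sum_mul]
        exact Finset.sum_congr rfl fun m _ => by ring
      rw [e3, Finset.sum_comm]
      refine Finset.sum_congr rfl fun z _ => ?_
      rw [Finset.mul_sum]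
    rw [e1, e2, ← Finset.sum_sub_distrib]
    refine Finset.sum_congr rfl fun z _ => ?_
    rw [← Finset.sum_sub_distrib, Finset.mul_sum]
    exact Finset.sum_congr rfl fun y _ => by ring
  rw [h2, ← sub_add, ← Finset.sum_sub_distrib, ← Finset.sum_add_distrib]
  refine Finset.sum_congr rfl fun y _ => ?_
  rw [← Finset.sum_sub_distrib, ← Finset.sum_add_distrib]
  refine Finset.sum_congr rfl fun z _ => ?_
  rw [Derivation.leibniz, smul_eq_mul, smul_eq_mul]
  ring

/-- For a cocycle `A`, `E (∑_{y,z} (∂g)_{yz} C_{yz}) = 0`: integration by parts (`Ev_hat`) and the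
divergence identity `div_adj` with `D y = (d.D y).map C`. -/
theorem Data.E_dd (d : Data n) (hu : d.Unimodular) (A : Matrix (Fin n) (Fin n) (P n))
    (hA : d.Cocycle A) (g : Fin n → P n) :
    Ev n (∑ y, ∑ z, d.dd g y z * A.adjugate z y) = 0 := by
  have hdiv := div_adj (fun y => hat (d.D y)) (fun y => (d.D y).map (C : ℂ →+* P n))
    (fun x y k => C (d.B x y k)) (fun x y k => by rw [d.anti, map_neg])
    (fun y => by
      have h1 := congrArg (C : ℂ →+* P n) (hu y)
      rw [map_sum] at h1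
      rw [← h1, Matrix.trace, Matrix.trace, map_sum]
      rfl) A (fun y y' z => hA y y' z)
  have hkey := Z11_alg (fun y => hat (d.D y)) (fun y => (d.D y).map (C : ℂ →+* P n))
    A.adjugate g
  have h0 : ∑ z, g z * ∑ y, ((fun y => hat (d.D y)) y (A.adjugate z y) -
      ∑ z', ((fun y => (d.D y).map (C : ℂ →+* P n)) y) z' z * A.adjugate z' y) = 0 :=
    Finset.sum_eq_zero fun z _ => by rw [hdiv z, mul_zero]
  rw [h0, sub_zero] at hkey
  refine (congrArg (Ev n) hkey).trans ?_
  rw [map_sum]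
  refine Finset.sum_eq_zero fun y _ => ?_
  rw [map_sum]
  exact Finset.sum_eq_zero fun z _ => Ev_hat _ _

end Pool.Agent.Lib.ThZ
end
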