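import Pool.Agent.Lib.MP_a150d7_gt.LinAlg

section

open Module
open scoped InnerProductSpace

namespace Pool.Agent.Lib.MP_a150d7_gt

variable {E : Type*} [NormedAddCommGroup E] [InnerProductSpace ℝ E] [FiniteDimensional ℝ E]

/-- algebraic data of the `(0,1)`-part of the Chern connection -/
structure ChernData (A : E →ₗ[ℝ] E →ₗ[ℝ] E) (J : E →ₗ[ℝ] E) : Prop where
  JJ : ∀ x, J (J x) = -x
  isoJ : ∀ x y, ⟪J x, J y⟫_ℝ = ⟪x, y⟫_ℝ
  A1 : ∀ x y, A (J x) y = -J (A x y)
  A2 : ∀ x y, A x (J y) = J (A x y)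

/-- the transpose of `A x` -/
noncomputable def At (A : E →ₗ[ℝ] E →ₗ[ℝ] E) (x : E) : E →ₗ[ℝ] E := LinearMap.adjoint (A x)

theorem inner_At (A : E →ₗ[ℝ] E →ₗ[ℝ] E) (x y z : E) : ⟪At A x y, z⟫_ℝ = ⟪y, A x z⟫_ℝ :=
  LinearMap.adjoint_inner_left _ _ _

theorem inner_At' (A : E →ₗ[ℝ] E →ₗ[ℝ] E) (x y z : E) : ⟪y, At A x z⟫_ℝ = ⟪A x y, z⟫_ℝ :=
  LinearMap.adjoint_inner_right _ _ _

theorem At_add (A : E →ₗ[ℝ] E →ₗ[ℝ] E) (x y : E) : At A (x + y) = At A x + At A y := by
  unfold At; rw [map_add, map_add]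

theorem At_sub (A : E →ₗ[ℝ] E →ₗ[ℝ] E) (x y : E) : At A (x - y) = At A x - At A y := by
  unfold At; rw [map_sub, map_sub]

theorem At_zero (A : E →ₗ[ℝ] E →ₗ[ℝ] E) : At A 0 = 0 := by
  unfold At; rw [map_zero, map_zero]

/-- the quartic form: half of the Chern holomorphic sectional curvature times `‖x‖⁴` -/
noncomputable def Qf (A : E →ₗ[ℝ] E →ₗ[ℝ] E) (x : E) : ℝ :=
  ‖At A x x‖ ^ 2 - ‖A x x‖ ^ 2 - 2 * ⟪A (A x x) x, x⟫_ℝ

/-- its polarisation -/
noncomputable def Q11 (A : E →ₗ[ℝ] E →ₗ[ℝ] E) (x y : E) : ℝ :=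
  ‖At A x y + At A y x‖ ^ 2 - ‖A y x‖ ^ 2 - ‖A x y‖ ^ 2 - 2 * ⟪A x x, A y y⟫_ℝ -
    2 * (⟪A (A x x) y, y⟫_ℝ + ⟪A (A y y) x, x⟫_ℝ + ⟪A (A x y) y, x⟫_ℝ + ⟪A (A y x) x, y⟫_ℝ)

theorem par (a b : E) : ‖a + b‖ ^ 2 + ‖a - b‖ ^ 2 = 2 * ‖a‖ ^ 2 + 2 * ‖b‖ ^ 2 := by
  have := parallelogram_law_with_norm ℝ a b
  nlinarith [this]

namespace ChernData
variable {A : E →ₗ[ℝ] E →ₗ[ℝ] E} {J : E →ₗ[ℝ] E} (h : ChernData A J)
include h

theorem innerJ (x y : E) : ⟪J x, y⟫_ℝ = -⟪x, J y⟫_ℝ := by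
  have := h.isoJ x (J y)
  rw [h.JJ, inner_neg_right] at this
  linarith

theorem normJ (x : E) : ‖J x‖ = ‖x‖ := by
  have := h.isoJ x x
  rw [real_inner_self_eq_norm_sq, real_inner_self_eq_norm_sq] at this
  exact (sq_eq_sq₀ (norm_nonneg _) (norm_nonneg _)).1 this

theorem J_inj {x y : E} (hxy : J x = J y) : x = y := by
  have := congrArg J hxy
  rw [h.JJ, h.JJ] at this
  exact neg_injective this

theorem At2 (x y : E) : At A x (J y) = J (At A x y) := by
  refine ext_inner_right ℝ fun z => ?_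
  rw [inner_At, h.innerJ, h.innerJ, inner_At, h.A2]

theorem At1 (x y : E) : At A (J x) y = J (At A x y) := by
  refine ext_inner_right ℝ fun z => ?_
  rw [inner_At, h.A1, inner_neg_right, h.innerJ, inner_At, h.A2]

theorem polar (x y : E) : Qf A (x + y) + Qf A (x - y) + Qf A (x + J y) + Qf A (x - J y) =
    4 * Qf A x + 4 * Qf A y + 4 * Q11 A x y := by
  -- first term
  have e1 : At A (x + y) (x + y) = (At A x x + At A y y) + (At A x y + At A y x) := by
    rw [At_add]; simp only [LinearMap.add_apply, map_add]; abel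
  have e2 : At A (x - y) (x - y) = (At A x x + At A y y) - (At A x y + At A y x) := by
    rw [At_sub]; simp only [LinearMap.sub_apply, map_sub]; abel
  have e3 : At A (x + J y) (x + J y) = (At A x x - At A y y) + J (At A x y + At A y x) := by
    rw [At_add]; simp only [LinearMap.add_apply, map_add, h.At1, h.At2, h.JJ]; abel
  have e4 : At A (x - J y) (x - J y) = (At A x x - At A y y) - J (At A x y + At A y x) := by
    rw [At_sub]; simp only [LinearMap.sub_apply, map_sub, map_add, h.At1, h.At2, h.JJ]; abel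
  have f1 : A (x + y) (x + y) = (A x x + A y y) + (A x y + A y x) := by
    simp only [LinearMap.add_apply, map_add]; abel
  have f2 : A (x - y) (x - y) = (A x x + A y y) - (A x y + A y x) := by
    simp only [LinearMap.sub_apply, map_sub]; abel
  have f3 : A (x + J y) (x + J y) = (A x x + A y y) + J (A x y - A y x) := by
    simp only [LinearMap.add_apply, map_add, map_sub, h.A1, h.A2, h.JJ]; abel
  have f4 : A (x - J y) (x - J y) = (A x x + A y y) - J (A x y - A y x) := by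
    simp only [LinearMap.sub_apply, map_sub, h.A1, h.A2, h.JJ]; abel
  have n1 := par (At A x x + At A y y) (At A x y + At A y x)
  have n2 := par (At A x x - At A y y) (J (At A x y + At A y x))
  have n3 := par (At A x x) (At A y y)
  have n4 := par (A x x + A y y) (A x y + A y x)
  have n5 := par (A x x + A y y) (J (A x y - A y x))
  have n6 := par (A x y) (A y x)
  have n7 := norm_add_sq_real (A x x) (A y y)
  rw [h.normJ] at n2 n5
  have g1 : ⟪A ((A x x + A y y) + (A x y + A y x)) (x + y), x + y⟫_ℝ +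
      ⟪A ((A x x + A y y) - (A x y + A y x)) (x - y), x - y⟫_ℝ =
      2 * (⟪A (A x x + A y y) x, x⟫_ℝ + ⟪A (A x x + A y y) y, y⟫_ℝ +
        ⟪A (A x y + A y x) x, y⟫_ℝ + ⟪A (A x y + A y x) y, x⟫_ℝ) := by
    simp only [LinearMap.sub_apply, LinearMap.add_apply, map_sub, map_add, inner_add_left,
      inner_add_right, inner_sub_left, inner_sub_right]
    ring
  have g2 : ⟪A ((A x x + A y y) + J (A x y - A y x)) (x + J y), x + J y⟫_ℝ +
      ⟪A ((A x x + A y y) - J (A x y - A y x)) (x - J y), x - J y⟫_ℝ =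
      2 * (⟪A (A x x + A y y) x, x⟫_ℝ + ⟪A (A x x + A y y) y, y⟫_ℝ -
        ⟪A (A x y - A y x) x, y⟫_ℝ + ⟪A (A x y - A y x) y, x⟫_ℝ) := by
    generalize A x x + A y y = P0
    generalize A x y - A y x = P1
    simp only [LinearMap.sub_apply, LinearMap.add_apply, map_sub, map_add, inner_add_left,
      inner_add_right, inner_sub_left, inner_sub_right, h.A1, h.A2, h.JJ, inner_neg_left,
      inner_neg_right, h.isoJ]
    ring
  have g3 : ⟪A (A x x + A y y) x, x⟫_ℝ = ⟪A (A x x) x, x⟫_ℝ + ⟪A (A y y) x, x⟫_ℝ := by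
    simp only [map_add, LinearMap.add_apply, inner_add_left]
  have g4 : ⟪A (A x x + A y y) y, y⟫_ℝ = ⟪A (A x x) y, y⟫_ℝ + ⟪A (A y y) y, y⟫_ℝ := by
    simp only [map_add, LinearMap.add_apply, inner_add_left]
  have g5 : ⟪A (A x y + A y x) x, y⟫_ℝ = ⟪A (A x y) x, y⟫_ℝ + ⟪A (A y x) x, y⟫_ℝ := by
    simp only [map_add, LinearMap.add_apply, inner_add_left]
  have g6 : ⟪A (A x y + A y x) y, x⟫_ℝ = ⟪A (A x y) y, x⟫_ℝ + ⟪A (A y x) y, x⟫_ℝ := by
    simp only [map_add, LinearMap.add_apply, inner_add_left]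
  have g7 : ⟪A (A x y - A y x) x, y⟫_ℝ = ⟪A (A x y) x, y⟫_ℝ - ⟪A (A y x) x, y⟫_ℝ := by
    simp only [map_sub, LinearMap.sub_apply, inner_sub_left]
  have g8 : ⟪A (A x y - A y x) y, x⟫_ℝ = ⟪A (A x y) y, x⟫_ℝ - ⟪A (A y x) y, x⟫_ℝ := by
    simp only [map_sub, LinearMap.sub_apply, inner_sub_left]
  unfold Qf Q11
  rw [e1, e2, e3, e4, f1, f2, f3, f4]
  linear_combination n1 + n2 + 2 * n3 - n4 - n5 - 2 * n6 - 4 * n7 - 2 * g1 - 2 * g2 - 8 * g3 -
    8 * g4 - 4 * g5 - 4 * g6 + 4 * g7 - 4 * g8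

theorem norm4 (x y : E) : ‖x + y‖ ^ 4 + ‖x - y‖ ^ 4 + ‖x + J y‖ ^ 4 + ‖x - J y‖ ^ 4 =
    4 * ‖x‖ ^ 4 + 4 * ‖y‖ ^ 4 +
      4 * (2 * ‖x‖ ^ 2 * ‖y‖ ^ 2 + 2 * ⟪x, y⟫_ℝ ^ 2 + 2 * ⟪x, J y⟫_ℝ ^ 2) := by
  have e1 := norm_add_sq_real x y
  have e2 := norm_sub_sq_real x y
  have e3 := norm_add_sq_real x (J y)
  have e4 := norm_sub_sq_real x (J y)
  rw [h.normJ] at e3 e4
  have p : ∀ z : E, ‖z‖ ^ 4 = (‖z‖ ^ 2) ^ 2 := fun z => by ring
  rw [p (x + y), p (x - y), p (x + J y), p (x - J y), e1, e2, e3, e4, p x, p y]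
  ring

/-- if the quartic form is `c ‖x‖⁴`, its polarisation is known -/
theorem Q11_eq {c : ℝ} (hQ : ∀ x, Qf A x = c * ‖x‖ ^ 4) (x y : E) :
    Q11 A x y = c * (2 * ‖x‖ ^ 2 * ‖y‖ ^ 2 + 2 * ⟪x, y⟫_ℝ ^ 2 + 2 * ⟪x, J y⟫_ℝ ^ 2) := by
  have h1 := h.polar x y
  have h2 := h.norm4 x y
  rw [hQ, hQ, hQ, hQ, hQ, hQ] at h1
  linear_combination (-1 / 4 : ℝ) * h1 + c / 4 * h2

end ChernData

end Pool.Agent.Lib.MP_a150d7_gt
end

section

set_option linter.unusedSectionVars false

open Module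
open scoped InnerProductSpace

namespace Pool.Agent.Lib.MP_a150d7_gt

variable {E : Type*} [NormedAddCommGroup E] [InnerProductSpace ℝ E] [FiniteDimensional ℝ E]

/-- a Lie bracket with a compatible integrable complex structure -/
structure HermLie (br : E →ₗ[ℝ] E →ₗ[ℝ] E) (J : E →ₗ[ℝ] E) : Prop where
  self : ∀ x, br x x = 0
  jacobi : ∀ x y z, br x (br y z) = br (br x y) z + br y (br x z)
  JJ : ∀ x, J (J x) = -x
  isoJ : ∀ x y, ⟪J x, J y⟫_ℝ = ⟪x, y⟫_ℝ
  integ : ∀ x y, br x y - br (J x) (J y) + J (br (J x) y + br x (J y)) = 0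

/-- the `(0,1)`-part of the Chern connection -/
noncomputable def Ac (br : E →ₗ[ℝ] E →ₗ[ℝ] E) (J : E →ₗ[ℝ] E) : E →ₗ[ℝ] E →ₗ[ℝ] E :=
  (1 / 2 : ℝ) • (br + (br ∘ₗ J).compr₂ J)

/-- the derived algebra -/
def dn (br : E →ₗ[ℝ] E →ₗ[ℝ] E) : Submodule ℝ E := Submodule.span ℝ {v | ∃ a b, v = br a b}

/-- the largest `J`-invariant subspace of the derived algebra -/
def de (br : E →ₗ[ℝ] E →ₗ[ℝ] E) (J : E →ₗ[ℝ] E) : Submodule ℝ E := dn br ⊓ (dn br).comap J

/-- the smallest `J`-invariant subspace containing the derived algebra -/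
def dp (br : E →ₗ[ℝ] E →ₗ[ℝ] E) (J : E →ₗ[ℝ] E) : Submodule ℝ E := dn br ⊔ (dn br).map J

/-- the orthogonal complement of `de` in the derived algebra -/
noncomputable def dr (br : E →ₗ[ℝ] E →ₗ[ℝ] E) (J : E →ₗ[ℝ] E) : Submodule ℝ E := dn br ⊓ (de br J)ᗮ

theorem Ac_apply (br : E →ₗ[ℝ] E →ₗ[ℝ] E) (J : E →ₗ[ℝ] E) (x y : E) :
    Ac br J x y = (1 / 2 : ℝ) • (br x y + J (br (J x) y)) := rfl

namespace HermLie

variable {br : E →ₗ[ℝ] E →ₗ[ℝ] E} {J : E →ₗ[ℝ] E} (h : HermLie br J)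
include h

theorem skew (x y : E) : br x y = -br y x := by
  have := h.self (x + y)
  simp only [map_add, LinearMap.add_apply, h.self, zero_add, add_zero] at this
  exact eq_neg_of_add_eq_zero_right this

theorem integ' (x y : E) : J (br (J x) y + br x (J y)) = br (J x) (J y) - br x y := by
  have := h.integ x y
  have h2 : J (br (J x) y + br x (J y)) = -(br x y - br (J x) (J y)) :=
    eq_neg_of_add_eq_zero_right this
  rw [h2]; abel

theorem chern : ChernData (Ac br J) J where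
  JJ := h.JJ
  isoJ := h.isoJ
  A1 := fun x y => by
    simp only [Ac_apply, h.JJ, map_neg, LinearMap.neg_apply, map_smul, map_add]
    rw [← smul_neg]
    congr 1
    rw [neg_add, neg_neg]; abel
  A2 := fun x y => by
    simp only [Ac_apply, map_smul, map_add, h.JJ]
    congr 1
    have h1 := h.integ' x y
    have h2 : J (J (br (J x) y + br x (J y))) = J (br (J x) (J y) - br x y) := by rw [h1]
    rw [h.JJ, map_sub] at h2
    have h3 : J (br (J x) (J y)) = J (br x y) - (br (J x) y + br x (J y)) := by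
      rw [sub_eq_add_neg, h2]; abel
    rw [h3]; abel

theorem innerJ (x y : E) : ⟪J x, y⟫_ℝ = -⟪x, J y⟫_ℝ := h.chern.innerJ x y

theorem br_mem (x y : E) : br x y ∈ dn br := Submodule.subset_span ⟨x, y, rfl⟩

theorem dp_elim {v : E} (hv : v ∈ dp br J) : ∃ n ∈ dn br, ∃ n' ∈ dn br, v = n + J n' := by
  obtain ⟨n, hn, w, hw, rfl⟩ := Submodule.mem_sup.1 hv
  obtain ⟨n', hn', rfl⟩ := Submodule.mem_map.1 hw
  exact ⟨n, hn, n', hn', rfl⟩

theorem dn_le_dp : dn br ≤ dp br J := le_sup_left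

theorem J_dn_mem_dp {n : E} (hn : n ∈ dn br) : J n ∈ dp br J :=
  Submodule.mem_sup_right (Submodule.mem_map_of_mem hn)

theorem J_dp {v : E} (hv : v ∈ dp br J) : J v ∈ dp br J := by
  obtain ⟨n, hn, n', hn', rfl⟩ := h.dp_elim hv
  rw [map_add, h.JJ]
  exact Submodule.add_mem _ (h.J_dn_mem_dp hn) (Submodule.neg_mem _ (h.dn_le_dp hn'))

theorem J_de {e : E} (he : e ∈ de br J) : J e ∈ de br J := by
  obtain ⟨h1, h2⟩ := he
  refine ⟨h2, ?_⟩
  show J (J e) ∈ dn br
  rw [h.JJ]; exact Submodule.neg_mem _ h1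

theorem de_le_dn : de br J ≤ dn br := inf_le_left

theorem de_le_dp : de br J ≤ dp br J := h.de_le_dn.trans h.dn_le_dp

theorem dr_le_dn : dr br J ≤ dn br := inf_le_left

theorem dr_orth {a e : E} (ha : a ∈ dr br J) (he : e ∈ de br J) : ⟪a, e⟫_ℝ = 0 :=
  Submodule.inner_left_of_mem_orthogonal he ha.2

theorem dr_orthJ {a e : E} (ha : a ∈ dr br J) (he : e ∈ de br J) : ⟪J a, e⟫_ℝ = 0 := by
  rw [h.innerJ, h.dr_orth ha (h.J_de he), neg_zero]

theorem eq_zero_of_de_dr {v : E} (h1 : v ∈ de br J) (h2 : v ∈ dr br J) : v = 0 := by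
  have := h.dr_orth h2 h1
  exact inner_self_eq_zero.1 this

theorem A_mem_dp (x y : E) : Ac br J x y ∈ dp br J := by
  rw [Ac_apply]
  exact Submodule.smul_mem _ _ (Submodule.add_mem _ (h.dn_le_dp (h.br_mem _ _))
    (h.J_dn_mem_dp (h.br_mem _ _)))

/-- decomposition of the derived algebra -/
theorem sub_pr_de {v : E} (hv : v ∈ dn br) : v - pr (de br J) v ∈ dr br J :=
  ⟨Submodule.sub_mem _ hv (h.de_le_dn (pr_mem _ _)), sub_pr_mem _ _⟩

theorem pr_dr {v : E} (hv : v ∈ dn br) : pr (dr br J) v = v - pr (de br J) v := by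
  have h1 : pr (dr br J) v = pr (dr br J) (v - pr (de br J) v) + pr (dr br J) (pr (de br J) v) := by
    rw [← map_add]; congr 1; abel
  have h2 : pr (dr br J) (pr (de br J) v) = 0 := by
    apply pr_eq_zero
    rw [Submodule.mem_orthogonal]
    intro a ha
    exact h.dr_orth ha (pr_mem _ _)
  rw [h1, pr_eq_self (h.sub_pr_de hv), h2, add_zero]

theorem sub_pr_dr {v : E} (hv : v ∈ dn br) : v - pr (dr br J) v ∈ de br J := by
  rw [h.pr_dr hv, sub_sub_cancel]; exact pr_mem _ _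

theorem mem_de_of_pr {v : E} (hv : v ∈ dn br) (h0 : pr (dr br J) v = 0) : v ∈ de br J := by
  have := h.sub_pr_dr hv
  rwa [h0, sub_zero] at this

theorem pr_dr_of_de {v : E} (hv : v ∈ de br J) : pr (dr br J) v = 0 := by
  apply pr_eq_zero
  rw [Submodule.mem_orthogonal]
  intro a ha
  exact h.dr_orth ha hv

/-- elements of `dp` orthogonal to `de` -/
theorem m_elim {w : E} (hw : w ∈ dp br J) (hw' : w ∈ (de br J)ᗮ) :
    ∃ a ∈ dr br J, ∃ a' ∈ dr br J, w = a + J a' := by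
  obtain ⟨n, hn, n', hn', rfl⟩ := h.dp_elim hw
  refine ⟨n - pr (de br J) n, h.sub_pr_de hn, n' - pr (de br J) n', h.sub_pr_de hn', ?_⟩
  have h1 : (n + J n') - (n - pr (de br J) n + J (n' - pr (de br J) n')) =
      pr (de br J) n + J (pr (de br J) n') := by rw [map_sub]; abel
  have h2 : pr (de br J) n + J (pr (de br J) n') ∈ de br J :=
    Submodule.add_mem _ (pr_mem _ _) (h.J_de (pr_mem _ _))
  have h3 : (n + J n') - (n - pr (de br J) n + J (n' - pr (de br J) n')) ∈ (de br J)ᗮ := by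
    refine Submodule.sub_mem _ hw' (Submodule.add_mem _ (h.sub_pr_de hn).2 ?_)
    rw [Submodule.mem_orthogonal']
    intro e he
    exact h.dr_orthJ (h.sub_pr_de hn') he
  rw [h1] at h3
  have h4 : pr (de br J) n + J (pr (de br J) n') = 0 := by
    have := Submodule.inner_right_of_mem_orthogonal h2 h3
    exact inner_self_eq_zero.1 this
  rw [← sub_eq_zero, h1, h4]

theorem m_intro {a a' : E} (ha : a ∈ dr br J) (ha' : a' ∈ dr br J) :
    a + J a' ∈ dp br J ∧ a + J a' ∈ (de br J)ᗮ := by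
  refine ⟨Submodule.add_mem _ (h.dn_le_dp (h.dr_le_dn ha)) (h.J_dn_mem_dp (h.dr_le_dn ha')), ?_⟩
  refine Submodule.add_mem _ ha.2 ?_
  rw [Submodule.mem_orthogonal']
  intro e he
  exact h.dr_orthJ ha' he

/-- link between `A x y` and `A y x` -/
theorem link (x y : E) : Ac br J x y - Ac br J y x = (1 / 2 : ℝ) • (br x y + br (J x) (J y)) := by
  have h1 := h.integ' x y
  rw [Ac_apply, Ac_apply, ← smul_sub]
  congr 1
  rw [h.skew y x, h.skew (J y) x, map_neg]
  have h2 : J (br (J x) y) + J (br x (J y)) = br (J x) (J y) - br x y := by rw [← map_add, h1]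
  calc br x y + J (br (J x) y) - (-br x y + -J (br x (J y)))
      = br x y + br x y + (J (br (J x) y) + J (br x (J y))) := by abel
    _ = _ := by rw [h2]; abel

theorem link' (x y : E) : Ac br J x y + Ac br J y x =
    (1 / 2 : ℝ) • J (br (J x) y - br x (J y)) := by
  rw [Ac_apply, Ac_apply, ← smul_add]
  congr 1
  rw [h.skew y x, h.skew (J y) x, map_neg, map_sub]
  abel

theorem mem_de_of_swap {x y : E} (h0 : Ac br J y x = 0) : Ac br J x y ∈ de br J := by
  have h1 := h.link x y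
  have h2 := h.link' x y
  rw [h0, sub_zero] at h1
  rw [h0, add_zero] at h2
  constructor
  · rw [h1]
    exact Submodule.smul_mem _ _ (Submodule.add_mem _ (h.br_mem _ _) (h.br_mem _ _))
  · show J (Ac br J x y) ∈ dn br
    rw [h2, map_smul, h.JJ]
    exact Submodule.smul_mem _ _ (Submodule.neg_mem _
      (Submodule.sub_mem _ (h.br_mem _ _) (h.br_mem _ _)))

theorem sub_mem_de (x y : E) : br x y - br (J x) (J y) ∈ de br J := by
  have h1 := h.integ' x y
  constructor
  · exact Submodule.sub_mem _ (h.br_mem _ _) (h.br_mem _ _)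
  · show J (br x y - br (J x) (J y)) ∈ dn br
    have h2 : br x y - br (J x) (J y) = -J (br (J x) y + br x (J y)) := by rw [h1]; abel
    rw [h2, map_neg, h.JJ, neg_neg]
    exact Submodule.add_mem _ (h.br_mem _ _) (h.br_mem _ _)

/-- orthogonality to `dp` -/
theorem At_perp {b : E} (hb : b ∈ (dp br J)ᗮ) (x : E) : At (Ac br J) x b = 0 := by
  refine ext_inner_right ℝ fun z => ?_
  rw [inner_At, inner_zero_left]
  exact Submodule.inner_left_of_mem_orthogonal (h.A_mem_dp x z) hb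

theorem J_perp {b : E} (hb : b ∈ (dp br J)ᗮ) : J b ∈ (dp br J)ᗮ := by
  rw [Submodule.mem_orthogonal']
  intro v hv
  rw [h.innerJ, Submodule.inner_left_of_mem_orthogonal (h.J_dp hv) hb, neg_zero]

section metab
variable (hab : ∀ n ∈ dn br, ∀ n' ∈ dn br, br n n' = 0)
include hab

theorem comm_mod {n n' : E} (hn : n ∈ dn br) (hn' : n' ∈ dn br) :
    br (J n) n' - br (J n') n ∈ de br J := by
  constructor
  · exact Submodule.sub_mem _ (h.br_mem _ _) (h.br_mem _ _)
  · show J (br (J n) n' - br (J n') n) ∈ dn br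
    have h1 := h.integ' n n'
    rw [hab n hn n' hn', sub_zero] at h1
    have h2 : br (J n) n' - br (J n') n = br (J n) n' + br n (J n') := by
      rw [h.skew n (J n')]; abel
    rw [h2, h1]
    exact h.br_mem _ _

theorem e_ideal {n e : E} (hn : n ∈ dn br) (he : e ∈ de br J) : br (J n) e ∈ de br J := by
  have h1 := h.comm_mod hab hn (h.de_le_dn he)
  rwa [hab (J e) (h.de_le_dn (h.J_de he)) n hn, sub_zero] at h1

theorem A_dn_dn {n v : E} (hn : n ∈ dn br) (hv : v ∈ dn br) :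
    Ac br J n v = (1 / 2 : ℝ) • J (br (J n) v) := by
  rw [Ac_apply, hab n hn v hv, zero_add]

theorem A_Jn_dn {n v : E} (hn : n ∈ dn br) (hv : v ∈ dn br) :
    Ac br J (J n) v = (1 / 2 : ℝ) • br (J n) v := by
  rw [h.chern.A1, h.A_dn_dn hab hn hv, map_smul, h.JJ, smul_neg, neg_neg]

theorem A_e_p {e v : E} (he : e ∈ de br J) (hv : v ∈ dp br J) : Ac br J e v = 0 := by
  have key : ∀ n ∈ dn br, Ac br J e n = 0 := by
    intro n hn
    rw [h.A_dn_dn hab (h.de_le_dn he) hn, hab (J e) (h.de_le_dn (h.J_de he)) n hn, map_zero,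
      smul_zero]
  obtain ⟨n, hn, n', hn', rfl⟩ := h.dp_elim hv
  rw [map_add, h.chern.A2, key n hn, key n' hn', map_zero, add_zero]

theorem A_dn_e {n e : E} (hn : n ∈ dn br) (he : e ∈ de br J) : Ac br J n e ∈ de br J := by
  rw [h.A_dn_dn hab hn (h.de_le_dn he)]
  exact Submodule.smul_mem _ _ (h.J_de (h.e_ideal hab hn he))

theorem A_dp_e {v e : E} (hv : v ∈ dp br J) (he : e ∈ de br J) : Ac br J v e ∈ de br J := by
  obtain ⟨n, hn, n', hn', rfl⟩ := h.dp_elim hv
  rw [map_add, LinearMap.add_apply, h.chern.A1]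
  exact Submodule.add_mem _ (h.A_dn_e hab hn he)
    (Submodule.neg_mem _ (h.J_de (h.A_dn_e hab hn' he)))

/-- the operators `L n` on `dr` -/
noncomputable def _root_.Pool.Agent.Lib.MP_a150d7_gt.Lop (br : E →ₗ[ℝ] E →ₗ[ℝ] E)
    (J : E →ₗ[ℝ] E) (n : E) : E →ₗ[ℝ] E := pr (dr br J) ∘ₗ br (J n) ∘ₗ pr (dr br J)

omit h hab in
theorem Lop_apply (n x : E) : Lop br J n x = pr (dr br J) (br (J n) (pr (dr br J) x)) := rfl

omit h hab in
theorem Lop_add (n n' : E) : Lop br J (n + n') = Lop br J n + Lop br J n' := by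
  ext x; simp only [Lop_apply, map_add, LinearMap.add_apply]

omit h hab in
theorem Lop_smul (c : ℝ) (n : E) : Lop br J (c • n) = c • Lop br J n := by
  ext x; simp only [Lop_apply, map_smul, LinearMap.smul_apply]

theorem Lop_e {e : E} (he : e ∈ de br J) : Lop br J e = 0 := by
  ext x
  rw [Lop_apply, hab (J e) (h.de_le_dn (h.J_de he)) _ (h.dr_le_dn (pr_mem _ _)), map_zero,
    LinearMap.zero_apply]

theorem Lop_pr {n : E} (hn : n ∈ dn br) : Lop br J (pr (dr br J) n) = Lop br J n := by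
  have h1 : n = pr (dr br J) n + (n - pr (dr br J) n) := by abel
  conv_rhs => rw [h1]
  rw [Lop_add, h.Lop_e hab (h.sub_pr_dr hn), add_zero]

theorem Lop_congr {n n' : E} (hnn : n - n' ∈ de br J) : Lop br J n = Lop br J n' := by
  have h1 : n = n' + (n - n') := by abel
  rw [h1, Lop_add, h.Lop_e hab hnn, add_zero]

theorem Lop_apply' {m : E} (hm : m ∈ dn br) {x : E} (hx : x ∈ dn br) :
    Lop br J m x = pr (dr br J) (br (J m) x) := by
  rw [Lop_apply, ← sub_eq_zero, ← map_sub, ← map_sub]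
  have h1 : pr (dr br J) x - x ∈ de br J := by
    have := Submodule.neg_mem _ (h.sub_pr_dr hx)
    rwa [neg_sub] at this
  exact h.pr_dr_of_de (h.e_ideal hab hm h1)

theorem Lop_mul {m m' : E} (hm : m ∈ dn br) (hm' : m' ∈ dn br) :
    Lop br J (br (J m) m') = Lop br J m * Lop br J m' := by
  ext x
  have hr : pr (dr br J) x ∈ dn br := h.dr_le_dn (pr_mem _ _)
  set r := pr (dr br J) x with hrdef
  have hw : br (J m) m' ∈ dn br := h.br_mem _ _
  have h1 : Lop br J (br (J m) m') x = pr (dr br J) (br (J (br (J m) m')) r) := rfl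
  have h2 : (Lop br J m * Lop br J m') x = Lop br J m (Lop br J m' x) := rfl
  have h3 : Lop br J m' x = pr (dr br J) (br (J m') r) := rfl
  rw [h1, h2, h3, Lop_apply, pr_eq_self (pr_mem _ _), ← sub_eq_zero, ← map_sub]
  apply h.pr_dr_of_de
  -- first replacement
  have a1 := h.comm_mod hab hw hr
  have a2 : br (J r) (br (J m) m') = br (J m) (br (J r) m') := by
    rw [h.jacobi, hab _ (h.br_mem _ _) _ hm', zero_add]
  have a3 : br (J m) (br (J r) m' - br (J m') r) ∈ de br J :=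
    h.e_ideal hab hm (h.comm_mod hab hr hm')
  have a4 : br (J m) (br (J m') r - pr (dr br J) (br (J m') r)) ∈ de br J :=
    h.e_ideal hab hm (h.sub_pr_dr (h.br_mem _ _))
  have : br (J (br (J m) m')) r - br (J m) (pr (dr br J) (br (J m') r)) =
      (br (J (br (J m) m')) r - br (J r) (br (J m) m')) +
        br (J m) (br (J r) m' - br (J m') r) +
        br (J m) (br (J m') r - pr (dr br J) (br (J m') r)) := by
    rw [a2, map_sub, map_sub]; abel
  rw [this]
  exact Submodule.add_mem _ (Submodule.add_mem _ a1 a3) a4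

theorem Lop_comm {m m' : E} (hm : m ∈ dn br) (hm' : m' ∈ dn br) (x : E) :
    Lop br J m (Lop br J m' x) = Lop br J m' (Lop br J m x) := by
  have h1 := h.Lop_mul hab hm hm'
  have h2 := h.Lop_mul hab hm' hm
  rw [h.Lop_congr hab (h.comm_mod hab hm hm'), h2] at h1
  exact (LinearMap.congr_fun h1 x).symm

/-- trace identity coming from unimodularity -/
theorem trace_Lop (huni : ∀ x, LinearMap.trace ℝ E (br x) = 0) (m : E) :
    LinearMap.trace ℝ E (Lop br J m) = -LinearMap.trace ℝ E (pr (de br J) ∘ₗ br (J m)) := by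
  have h1 : br (J m) = pr (de br J) ∘ₗ br (J m) + pr (dr br J) ∘ₗ br (J m) := by
    ext v
    have := h.pr_dr (h.br_mem (J m) v)
    rw [LinearMap.add_apply, LinearMap.comp_apply, LinearMap.comp_apply, this]; abel
  have h2 : LinearMap.trace ℝ E (Lop br J m) =
      LinearMap.trace ℝ E (pr (dr br J) ∘ₗ br (J m)) := by
    have e1 : Lop br J m = (pr (dr br J) ∘ₗ br (J m)) ∘ₗ pr (dr br J) := rfl
    rw [e1, LinearMap.trace_comp_comm']
    congr 1
    ext v
    exact pr_eq_self (pr_mem _ _)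
  have h3 := huni (J m)
  rw [h1, map_add] at h3
  rw [h2]; linarith

/-- nilpotency -/
theorem Lop_nil (hneg : ∀ m ∈ dn br, LinearMap.trace ℝ E (Lop br J m * Lop br J m) ≤ 0)
    {m : E} (hm : m ∈ dn br) : IsNilpotent (Lop br J m) := by
  by_contra hnil
  obtain ⟨p, hp1, hp2⟩ := exists_idempotent _ hnil
  have hmem : ∀ w ∈ dn br, Lop br J m w ∈ dn br := fun w _ => h.dr_le_dn (pr_mem _ _)
  have hpow : ∀ k : ℕ, ((Lop br J m) ^ k) m ∈ dn br ∧
      Lop br J (((Lop br J m) ^ k) m) = (Lop br J m) ^ k * Lop br J m := by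
    intro k
    induction k with
    | zero => rw [pow_zero, one_mul]; exact ⟨hm, rfl⟩
    | succ k ih =>
      obtain ⟨ih1, ih2⟩ := ih
      have e1 : ((Lop br J m) ^ (k + 1)) m = Lop br J m (((Lop br J m) ^ k) m) := by
        rw [pow_succ']; rfl
      refine ⟨by rw [e1]; exact hmem _ ih1, ?_⟩
      rw [e1, h.Lop_apply' hab hm ih1, h.Lop_pr hab (h.br_mem _ _), h.Lop_mul hab hm ih1, ih2,
        pow_succ', mul_assoc]
  have hpoly : ∀ q : Polynomial ℝ, (Polynomial.aeval (Lop br J m) q) m ∈ dn br ∧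
      Lop br J ((Polynomial.aeval (Lop br J m) q) m) =
        Polynomial.aeval (Lop br J m) q * Lop br J m := by
    intro q
    induction q using Polynomial.induction_on' with
    | add p q hp hq =>
      rw [map_add, LinearMap.add_apply, Lop_add, hp.2, hq.2, add_mul]
      exact ⟨Submodule.add_mem _ hp.1 hq.1, rfl⟩
    | monomial k a =>
      have e1 : Polynomial.aeval (Lop br J m) (Polynomial.monomial k a) =
          a • (Lop br J m) ^ k := by
        rw [Polynomial.aeval_monomial, Algebra.algebraMap_eq_smul_one, smul_mul_assoc, one_mul]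
      rw [e1, LinearMap.smul_apply, Lop_smul, (hpow k).2, smul_mul_assoc]
      exact ⟨Submodule.smul_mem _ _ (hpow k).1, rfl⟩
  have h1 := hneg _ (hpoly p).1
  rw [(hpoly p).2, hp1] at h1
  exact absurd (trace_idempotent_pos _ hp1 hp2) (not_lt.2 h1)

end metab

end HermLie

end Pool.Agent.Lib.MP_a150d7_gt
end

section

set_option linter.unusedSectionVars false

open Module
open scoped InnerProductSpace

namespace Pool.Agent.Lib.MP_a150d7_gt

variable {E : Type*} [NormedAddCommGroup E] [InnerProductSpace ℝ E] [FiniteDimensional ℝ E]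

theorem coe_sum_repr {W : Submodule ℝ E} {ι : Type*} [Fintype ι] (b : OrthonormalBasis ι ℝ W)
    {y : E} (hy : y ∈ W) : y = ∑ i, (b.repr ⟨y, hy⟩ i) • (b i : E) := by
  have := congrArg Subtype.val (b.sum_repr ⟨y, hy⟩)
  simp only [Submodule.coe_sum, Submodule.coe_smul] at this
  exact this.symm

namespace HermLie

variable {br : E →ₗ[ℝ] E →ₗ[ℝ] E} {J : E →ₗ[ℝ] E} (h : HermLie br J)
  (hab : ∀ n ∈ dn br, ∀ n' ∈ dn br, br n n' = 0)
  (huni : ∀ x, LinearMap.trace ℝ E (br x) = 0)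
  {c : ℝ} (hQ : ∀ x, Qf (Ac br J) x = c * ‖x‖ ^ 4)
include h

theorem perp_inner {b v : E} (hb : b ∈ (dp br J)ᗮ) (hv : v ∈ dp br J) : ⟪v, b⟫_ℝ = 0 :=
  Submodule.inner_right_of_mem_orthogonal hv hb

theorem perp_inner' {b v : E} (hb : b ∈ (dp br J)ᗮ) (hv : v ∈ dp br J) : ⟪b, v⟫_ℝ = 0 :=
  Submodule.inner_left_of_mem_orthogonal hv hb

theorem Qf_perp {b : E} (hb : b ∈ (dp br J)ᗮ) : Qf (Ac br J) b = -‖Ac br J b b‖ ^ 2 := by
  unfold Qf
  rw [h.At_perp hb, norm_zero, h.perp_inner hb (h.A_mem_dp _ _)]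
  ring

theorem perp_decomp (x : E) : ∃ p ∈ dp br J, ∃ b ∈ (dp br J)ᗮ, x = p + b :=
  ⟨pr (dp br J) x, pr_mem _ _, x - pr (dp br J) x, sub_pr_mem _ _, by abel⟩

theorem dp_decomp {x : E} (hx : x ∈ dp br J) :
    ∃ e ∈ de br J, ∃ a ∈ dr br J, ∃ a' ∈ dr br J, x = e + (a + J a') := by
  have h1 : x - pr (de br J) x ∈ dp br J :=
    Submodule.sub_mem _ hx (h.de_le_dp (pr_mem _ _))
  obtain ⟨a, ha, a', ha', he⟩ := h.m_elim h1 (sub_pr_mem _ _)
  exact ⟨pr (de br J) x, pr_mem _ _, a, ha, a', ha', by rw [← he]; abel⟩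

include hQ in
/-- a vector of `dp` whose `A` kills `dp` forces `c = 0` -/
theorem c_zero_of {y : E} (hy0 : y ≠ 0) (hy : y ∈ dp br J)
    (hA : ∀ v ∈ dp br J, Ac br J y v = 0) : c = 0 := by
  have hpos : 0 < ‖y‖ ^ 4 := by positivity
  have h1 : Qf (Ac br J) y = ‖At (Ac br J) y y‖ ^ 2 := by
    unfold Qf
    rw [hA y hy, map_zero, LinearMap.zero_apply, norm_zero, inner_zero_left]; ring
  have h2 := hQ y
  rw [h1] at h2
  have hc : 0 ≤ c := by
    by_contra hc
    push Not at hc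
    have : c * ‖y‖ ^ 4 < 0 := mul_neg_of_neg_of_pos hc hpos
    have h3 : 0 ≤ ‖At (Ac br J) y y‖ ^ 2 := by positivity
    linarith
  by_cases hB : (dp br J)ᗮ = ⊥
  · have htop : dp br J = ⊤ := Submodule.orthogonal_eq_bot_iff.1 hB
    have h3 : At (Ac br J) y y = 0 := by
      refine ext_inner_right ℝ fun z => ?_
      rw [inner_At, inner_zero_left, hA z (by rw [htop]; trivial), inner_zero_right]
    rw [h3, norm_zero] at h2
    have h4 : c * ‖y‖ ^ 4 = 0 := by rw [← h2]; ring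
    rcases mul_eq_zero.1 h4 with h5 | h5
    · exact h5
    · exact absurd h5 hpos.ne'
  · obtain ⟨b, hb, hb0⟩ := Submodule.exists_mem_ne_zero_of_ne_bot hB
    have h3 := hQ b
    rw [h.Qf_perp hb] at h3
    have hbpos : 0 < ‖b‖ ^ 4 := by positivity
    have hc' : c ≤ 0 := by
      by_contra hc'
      push Not at hc'
      have : 0 < c * ‖b‖ ^ 4 := mul_pos hc' hbpos
      have h5 : 0 ≤ ‖Ac br J b b‖ ^ 2 := by positivity
      linarith
    linarith

include hab

/-- a killed vector -/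
theorem killed {z : E} (hz : z ∈ dr br J) (hk : ∀ m ∈ dn br, Lop br J m z = 0) :
    ∀ m ∈ dn br, br (J m) z ∈ de br J ∧ br (J z) m ∈ de br J := by
  intro m hm
  have h1 := hk m hm
  rw [h.Lop_apply' hab hm (h.dr_le_dn hz)] at h1
  have h2 := h.mem_de_of_pr (h.br_mem _ _) h1
  refine ⟨h2, ?_⟩
  have h3 := h.comm_mod hab (h.dr_le_dn hz) hm
  have : br (J z) m = (br (J z) m - br (J m) z) + br (J m) z := by abel
  rw [this]
  exact Submodule.add_mem _ h3 h2

include huni hQ in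
theorem c_zero [Nontrivial E] : c = 0 := by
  by_cases he : de br J = ⊥
  · -- no complex part
    have htr : ∀ m, LinearMap.trace ℝ E (Lop br J m) = 0 := by
      intro m
      rw [h.trace_Lop hab huni m, he]
      have : pr (⊥ : Submodule ℝ E) ∘ₗ br (J m) = 0 := by
        ext v
        exact (Submodule.mem_bot ℝ).1 (pr_mem (⊥ : Submodule ℝ E) _)
      rw [this, map_zero, neg_zero]
    have hnil : ∀ m ∈ dn br, IsNilpotent (Lop br J m) := fun m hm =>
      h.Lop_nil hab (fun m hm => by rw [← h.Lop_mul hab hm hm, htr]) hm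
    by_cases hr : dr br J = ⊥
    · -- abelian
      have hn : ∀ x y, br x y = 0 := by
        intro x y
        have h1 : br x y ∈ dr br J := by
          refine ⟨h.br_mem _ _, ?_⟩
          rw [he, Submodule.bot_orthogonal_eq_top]; trivial
        rw [hr] at h1
        exact (Submodule.mem_bot ℝ).1 h1
      have hA : ∀ x y, Ac br J x y = 0 := fun x y => by
        rw [Ac_apply, hn, hn, map_zero, add_zero, smul_zero]
      obtain ⟨x, hx⟩ := exists_ne (0 : E)
      have h1 := hQ x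
      have h2 : At (Ac br J) x x = 0 := by
        refine ext_inner_right ℝ fun z => ?_
        rw [inner_At, hA, inner_zero_left, inner_zero_right]
      unfold Qf at h1
      rw [h2, hA, hA, norm_zero, inner_zero_left] at h1
      have hpos : ‖x‖ ^ 4 ≠ 0 := by positivity
      have h4 : c * ‖x‖ ^ 4 = 0 := by rw [← h1]; ring
      rcases mul_eq_zero.1 h4 with h5 | h5
      · exact h5
      · exact absurd h5 hpos
    · obtain ⟨z, hz, hz0, hk⟩ := exists_killed (fun m : dn br => Lop br J m)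
        (fun m => hnil m m.2) (fun m m' x => h.Lop_comm hab m.2 m'.2 x) (dr br J) hr
        (fun m x _ => pr_mem _ _)
      have hk' := h.killed hab hz (fun m hm => hk ⟨m, hm⟩)
      have hAn : ∀ n ∈ dn br, Ac br J z n = 0 := by
        intro n hn
        rw [h.A_dn_dn hab (h.dr_le_dn hz) hn]
        have h1 := (hk' n hn).2
        rw [he] at h1
        rw [(Submodule.mem_bot ℝ).1 h1, map_zero, smul_zero]
      refine h.c_zero_of hQ hz0 (h.dn_le_dp (h.dr_le_dn hz)) ?_
      intro v hv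
      obtain ⟨n, hn, n', hn', rfl⟩ := h.dp_elim hv
      rw [map_add, h.chern.A2, hAn n hn, hAn n' hn', map_zero, add_zero]
  · obtain ⟨y, hy, hy0⟩ := Submodule.exists_mem_ne_zero_of_ne_bot he
    exact h.c_zero_of hQ hy0 (h.de_le_dp hy) (fun v hv => h.A_e_p hab hy hv)

section zero
variable (hQ0 : ∀ x, Qf (Ac br J) x = 0)

include hQ0 in
omit hab in
theorem Q11_zero (x y : E) : Q11 (Ac br J) x y = 0 := by
  have := h.chern.Q11_eq (c := 0) (fun x => by rw [hQ0, zero_mul]) x y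
  rw [this, zero_mul]

/-- formula for `Q11` on `dr × de` -/
theorem Q11_re {m y : E} (hm : m ∈ dr br J) (hy : y ∈ de br J) :
    Q11 (Ac br J) m y = ‖At (Ac br J) m y + At (Ac br J) y m‖ ^ 2 - ‖Ac br J m y‖ ^ 2 -
      (1 / 2) * ⟪br (J (br (J m) m)) y, y⟫_ℝ := by
  have hmn := h.dr_le_dn hm
  have h1 : Ac br J y m = 0 := h.A_e_p hab hy (h.dn_le_dp hmn)
  have h2 : Ac br J y y = 0 := h.A_e_p hab hy (h.de_le_dp hy)
  have h3 : Ac br J m y ∈ de br J := h.A_dn_e hab hmn hy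
  have h4 : Ac br J (Ac br J m y) y = 0 := h.A_e_p hab h3 (h.de_le_dp hy)
  have h5 : Ac br J m m = (1 / 2 : ℝ) • J (br (J m) m) := h.A_dn_dn hab hmn hmn
  have h6 : Ac br J (Ac br J m m) y = (1 / 4 : ℝ) • br (J (br (J m) m)) y := by
    rw [h5, map_smul, LinearMap.smul_apply, h.A_Jn_dn hab (h.br_mem _ _) (h.de_le_dn hy),
      smul_smul]
    norm_num
  unfold Q11
  rw [h1, h2, h4, h6]
  simp only [norm_zero, map_zero, LinearMap.zero_apply, inner_zero_left, inner_zero_right,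
    inner_smul_left, conj_trivial]
  ring

include hQ0 huni

/-- first consequence: `At m y + At y m ∈ de` and nilpotency of the operators `L` -/
theorem step2 {m : E} (hm : m ∈ dr br J) :
    LinearMap.trace ℝ E (Lop br J m * Lop br J m) ≤ 0 ∧
      (IsNilpotent (Lop br J m) → ∀ y ∈ de br J,
        At (Ac br J) m y + At (Ac br J) y m ∈ de br J) := by
  have hmn := h.dr_le_dn hm
  let b := stdOrthonormalBasis ℝ (de br J)
  have h1 := hs_compare (de br J) b (Ac br J m) (fun w hw => h.A_dn_e hab hmn hw)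
    (fun i => At (Ac br J) m (b i) + At (Ac br J) (b i) m) (by
      intro i j
      rw [inner_add_left, inner_At, inner_At,
        h.A_e_p hab (b i).2 (h.de_le_dp (b j).2), inner_zero_right, add_zero])
  have h2 : ∑ i, (‖At (Ac br J) m (b i) + At (Ac br J) (b i) m‖ ^ 2 -
      ‖Ac br J m (b i)‖ ^ 2 - (1 / 2) * ⟪br (J (br (J m) m)) (b i), (b i : E)⟫_ℝ) = 0 := by
    refine Finset.sum_eq_zero fun i _ => ?_
    rw [← h.Q11_re hab hm (b i).2]
    exact h.Q11_zero hQ0 _ _
  rw [Finset.sum_sub_distrib, Finset.sum_sub_distrib, ← Finset.mul_sum,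
    sum_inner_eq_trace (de br J) b (br (J (br (J m) m))), h1] at h2
  have h3 := h.trace_Lop hab huni (br (J m) m)
  rw [h.Lop_mul hab hmn hmn] at h3
  have h4 : 0 ≤ ∑ i, ‖(At (Ac br J) m (b i) + At (Ac br J) (b i) m) -
      pr (de br J) (At (Ac br J) m (b i) + At (Ac br J) (b i) m)‖ ^ 2 :=
    Finset.sum_nonneg fun i _ => by positivity
  refine ⟨by linarith, fun hnil => ?_⟩
  have h5 : LinearMap.trace ℝ E (Lop br J m * Lop br J m) = 0 := by
    have h6 : IsNilpotent (Lop br J m * Lop br J m) := by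
      rw [← pow_two]; exact hnil.pow_of_pos (by norm_num)
    exact (LinearMap.isNilpotent_trace_of_isNilpotent h6).eq_zero
  have h6 : ∑ i, ‖(At (Ac br J) m (b i) + At (Ac br J) (b i) m) -
      pr (de br J) (At (Ac br J) m (b i) + At (Ac br J) (b i) m)‖ ^ 2 = 0 := by linarith
  rw [Finset.sum_eq_zero_iff_of_nonneg (fun i _ => by positivity)] at h6
  have h7 : ∀ i, At (Ac br J) m (b i) + At (Ac br J) (b i) m ∈ de br J := by
    intro i
    have h8 := h6 i (Finset.mem_univ i)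
    have h9 := norm_eq_zero.1 (pow_eq_zero_iff (two_ne_zero)|>.1 h8)
    rw [sub_eq_zero.1 h9]
    exact pr_mem _ _
  intro y hy
  have h8 : y = ∑ i, (b.repr ⟨y, hy⟩ i) • (b i : E) := coe_sum_repr b hy
  have hadd : ∀ s : Finset (Fin (finrank ℝ (de br J))), ∀ r : Fin (finrank ℝ (de br J)) → ℝ,
      At (Ac br J) m (∑ i ∈ s, r i • (b i : E)) + At (Ac br J) (∑ i ∈ s, r i • (b i : E)) m ∈
        de br J := by
    intro s r
    induction s using Finset.induction_on with
    | empty =>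
      rw [Finset.sum_empty, map_zero, At_zero, LinearMap.zero_apply, add_zero]
      exact Submodule.zero_mem _
    | insert i s his ih =>
      rw [Finset.sum_insert his, map_add, At_add, LinearMap.add_apply]
      have e1 : At (Ac br J) (r i • (b i : E)) m = r i • At (Ac br J) (b i) m := by
        unfold At
        rw [map_smul, map_smulₛₗ]
        rfl
      rw [e1, map_smul]
      have e2 : r i • At (Ac br J) m (b i) + At (Ac br J) m (∑ i ∈ s, r i • (b i : E)) +
          (r i • At (Ac br J) (b i) m + At (Ac br J) (∑ i ∈ s, r i • (b i : E)) m) =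
          r i • (At (Ac br J) m (b i) + At (Ac br J) (b i) m) +
          (At (Ac br J) m (∑ i ∈ s, r i • (b i : E)) +
            At (Ac br J) (∑ i ∈ s, r i • (b i : E)) m) := by
        rw [smul_add]; abel
      rw [e2]
      exact Submodule.add_mem _ (Submodule.smul_mem _ _ (h7 i)) ih
  rw [h8]
  exact hadd _ _

theorem nil {m : E} (hm : m ∈ dn br) : IsNilpotent (Lop br J m) := by
  refine h.Lop_nil hab (fun m hm => ?_) hm
  have := (h.step2 hab huni hQ0 (m := pr (dr br J) m) (pr_mem _ _)).1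
  rwa [h.Lop_pr hab hm] at this

theorem C1 {m y : E} (hm : m ∈ dr br J) (hy : y ∈ de br J) :
    At (Ac br J) m y + At (Ac br J) y m ∈ de br J :=
  (h.step2 hab huni hQ0 hm).2 (h.nil hab huni hQ0 (h.dr_le_dn hm)) y hy

theorem C2 {m w y : E} (hm : m ∈ dr br J) (hw : w ∈ dp br J) (hw' : w ∈ (de br J)ᗮ)
    (hy : y ∈ de br J) : ⟪y, Ac br J m w⟫_ℝ = 0 := by
  have h1 := Submodule.inner_right_of_mem_orthogonal (h.C1 hab huni hQ0 hm hy) hw'
  rw [inner_add_left, inner_At, inner_At, h.A_e_p hab hy hw, inner_zero_right, add_zero] at h1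
  exact h1

/-- the product of two elements of `dr` stays in `dr` -/
theorem br_dr {a b : E} (ha : a ∈ dr br J) (hb : b ∈ dr br J) : br (J a) b ∈ dr br J := by
  refine ⟨h.br_mem _ _, ?_⟩
  show br (J a) b ∈ (de br J)ᗮ
  rw [Submodule.mem_orthogonal]
  intro e he
  have h1 := h.C2 hab huni hQ0 ha (h.dn_le_dp (h.dr_le_dn hb)) hb.2 (h.J_de he)
  rw [h.A_dn_dn hab (h.dr_le_dn ha) (h.dr_le_dn hb), inner_smul_right, h.isoJ] at h1
  linarith

/-- facts about a killed vector -/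
theorem killed2 {z : E} (hz : z ∈ dr br J) (hk : ∀ m ∈ dn br, Lop br J m z = 0) :
    (∀ w ∈ dp br J, w ∈ (de br J)ᗮ → Ac br J z w = 0) ∧ (∀ p ∈ dp br J, Ac br J p z = 0) := by
  have hk' := h.killed hab hz hk
  have ha : ∀ a ∈ dr br J, Ac br J a z = 0 ∧ Ac br J z a = 0 := by
    intro a ha
    have han := h.dr_le_dn ha
    have hzn := h.dr_le_dn hz
    constructor
    · rw [h.A_dn_dn hab han hzn,
        h.eq_zero_of_de_dr (hk' a han).1 (h.br_dr hab huni hQ0 ha hz), map_zero, smul_zero]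
    · rw [h.A_dn_dn hab hzn han,
        h.eq_zero_of_de_dr (hk' a han).2 (h.br_dr hab huni hQ0 hz ha), map_zero, smul_zero]
  constructor
  · intro w hw hw'
    obtain ⟨a, haa, a', haa', rfl⟩ := h.m_elim hw hw'
    rw [map_add, h.chern.A2, (ha a haa).2, (ha a' haa').2, map_zero, add_zero]
  · intro p hp
    obtain ⟨e, he, a, haa, a', haa', rfl⟩ := h.dp_decomp hp
    rw [map_add, map_add, LinearMap.add_apply, LinearMap.add_apply, h.chern.A1,
      (ha a haa).1, (ha a' haa').1, h.A_e_p hab he (h.dn_le_dp (h.dr_le_dn hz)), map_zero,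
      neg_zero, add_zero, add_zero]

theorem killed3 {z : E} (hz : z ∈ dr br J) (hk : ∀ m ∈ dn br, Lop br J m z = 0)
    {w : E} (hw : w ∈ dp br J) (hw' : w ∈ (de br J)ᗮ) :
    At (Ac br J) z w + At (Ac br J) w z = 0 := by
  obtain ⟨k1, k2⟩ := h.killed2 hab huni hQ0 hz hk
  have hzp := h.dn_le_dp (h.dr_le_dn hz)
  have h1 := h.Q11_zero hQ0 z w
  unfold Q11 at h1
  rw [k1 w hw hw', k2 w hw, k1 z hzp hz.2, k2 _ (h.A_mem_dp w w)] at h1
  simp only [norm_zero, map_zero, LinearMap.zero_apply, inner_zero_left] at h1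
  have h2 : ‖At (Ac br J) z w + At (Ac br J) w z‖ ^ 2 = 0 := by linarith
  exact norm_eq_zero.1 (pow_eq_zero_iff (two_ne_zero)|>.1 h2)

/-- the operators `L` vanish -/
theorem Lop_zero {m : E} (hm : m ∈ dn br) (x : E) : Lop br J m x = 0 := by
  let W0 : Submodule ℝ E := Submodule.span ℝ {v | ∃ m ∈ dn br, ∃ x, v = Lop br J m x}
  by_contra hne
  have hW0 : W0 ≠ ⊥ := by
    intro h0
    have : Lop br J m x ∈ W0 := Submodule.subset_span ⟨m, hm, x, rfl⟩
    rw [h0] at this
    exact hne ((Submodule.mem_bot ℝ).1 this)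
  have hW0r : W0 ≤ dr br J := by
    refine Submodule.span_le.2 ?_
    rintro _ ⟨m, -, x, rfl⟩
    exact pr_mem _ _
  obtain ⟨z, hz, hz0, hk⟩ := exists_killed (fun m : dn br => Lop br J m)
    (fun m => h.nil hab huni hQ0 m.2) (fun m m' x => h.Lop_comm hab m.2 m'.2 x) W0 hW0
    (fun m x _ => Submodule.subset_span ⟨m, m.2, x, rfl⟩)
  have hzr := hW0r hz
  have hk' : ∀ m ∈ dn br, Lop br J m z = 0 := fun m hm => hk ⟨m, hm⟩
  obtain ⟨k1, k2⟩ := h.killed2 hab huni hQ0 hzr hk'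
  have horth : ∀ a ∈ dr br J, ∀ b ∈ dr br J, ⟪z, br (J a) b⟫_ℝ = 0 := by
    intro a ha b hb
    have hw := h.m_intro (Submodule.zero_mem _) ha
    rw [zero_add] at hw
    have h1 := h.killed3 hab huni hQ0 hzr hk' hw.1 hw.2
    have h2 : ⟪At (Ac br J) z (J a) + At (Ac br J) (J a) z, b⟫_ℝ = 0 := by
      rw [h1, inner_zero_left]
    rw [inner_add_left, inner_At, inner_At, k1 b (h.dn_le_dp (h.dr_le_dn hb)) hb.2,
      inner_zero_right, zero_add, h.A_Jn_dn hab (h.dr_le_dn ha) (h.dr_le_dn hb),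
      inner_smul_right] at h2
    linarith
  have hzW : ∀ v ∈ W0, ⟪z, v⟫_ℝ = 0 := by
    intro v hv
    induction hv using Submodule.span_induction with
    | mem v hv =>
      obtain ⟨m, hm, x, rfl⟩ := hv
      rw [← h.Lop_pr hab hm, Lop_apply, ← inner_pr_left, pr_eq_self hzr]
      exact horth _ (pr_mem _ _) _ (pr_mem _ _)
    | zero => exact inner_zero_right _
    | add v w _ _ ihv ihw => rw [inner_add_right, ihv, ihw, add_zero]
    | smul r v _ ih => rw [inner_smul_right, ih, mul_zero]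
  exact hz0 (inner_self_eq_zero.1 (hzW z hz))

/-- `A` vanishes on `(dp ∩ deᗮ)` -/
theorem C4 {w v : E} (hw : w ∈ dp br J) (hw' : w ∈ (de br J)ᗮ) (hv : v ∈ dp br J)
    (hv' : v ∈ (de br J)ᗮ) : Ac br J w v = 0 := by
  obtain ⟨a, ha, a', ha', rfl⟩ := h.m_elim hw hw'
  rw [map_add, LinearMap.add_apply, h.chern.A1,
    (h.killed2 hab huni hQ0 ha (fun m hm => h.Lop_zero hab huni hQ0 hm a)).1 v hv hv',
    (h.killed2 hab huni hQ0 ha' (fun m hm => h.Lop_zero hab huni hQ0 hm a')).1 v hv hv',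
    map_zero, neg_zero, add_zero]

theorem C5 {a w : E} (ha : a ∈ dr br J) (hw : w ∈ dp br J) (hw' : w ∈ (de br J)ᗮ) :
    At (Ac br J) a w + At (Ac br J) w a = 0 :=
  h.killed3 hab huni hQ0 ha (fun m hm => h.Lop_zero hab huni hQ0 hm a) hw hw'

/-- antisymmetry -/
theorem C6 {b u v : E} (hb : b ∈ (dp br J)ᗮ) (hu : u ∈ dp br J) (hv : v ∈ dp br J) :
    ⟪u, Ac br J v b⟫_ℝ + ⟪v, Ac br J u b⟫_ℝ = 0 := by
  have hbe : b ∈ (de br J)ᗮ := Submodule.orthogonal_le h.de_le_dp hb
  let S : E → E → ℝ := fun u v => ⟪u, Ac br J v b⟫_ℝ + ⟪v, Ac br J u b⟫_ℝ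
  have Sadd : ∀ u u' v, S (u + u') v = S u v + S u' v := by
    intro u u' v
    simp only [S, inner_add_left, map_add, LinearMap.add_apply, inner_add_right]; ring
  have Scomm : ∀ u v, S u v = S v u := fun u v => by simp only [S]; ring
  have SJ : ∀ u v, S (J u) v = S u (J v) := by
    intro u v
    simp only [S, h.chern.A1, h.innerJ, inner_neg_right]
  have SJJ : ∀ u v, S (J u) (J v) = -S u v := by
    intro u v
    rw [SJ]
    simp only [S, h.JJ, map_neg, LinearMap.neg_apply, inner_neg_left, inner_neg_right]; ring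
  have See : ∀ e ∈ de br J, ∀ f ∈ de br J, S e f = 0 := by
    have h0 : ∀ e ∈ de br J, S e e = 0 := by
      intro e he
      have h1 := hQ0 e
      unfold Qf at h1
      rw [h.A_e_p hab he (h.de_le_dp he)] at h1
      simp only [norm_zero, map_zero, LinearMap.zero_apply, inner_zero_left] at h1
      have h2 : ‖At (Ac br J) e e‖ ^ 2 = 0 := by linarith
      have h3 := norm_eq_zero.1 (pow_eq_zero_iff (two_ne_zero)|>.1 h2)
      simp only [S]
      rw [← inner_At, h3, inner_zero_left, add_zero]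
    intro e he f hf
    have h1 := h0 (e + f) (Submodule.add_mem _ he hf)
    rw [Sadd, Scomm e, Scomm f, Sadd, Sadd, h0 e he, h0 f hf, Scomm f e] at h1
    linarith
  have Sae : ∀ a ∈ dr br J, ∀ e ∈ de br J, S a e = 0 := by
    intro a ha e he
    have h1 := Submodule.inner_right_of_mem_orthogonal (h.C1 hab huni hQ0 ha he) hbe
    rw [inner_add_left, inner_At, inner_At] at h1
    simp only [S]; linarith
  have Saa : ∀ a ∈ dr br J, ∀ w ∈ dp br J, w ∈ (de br J)ᗮ → S a w = 0 := by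
    intro a ha w hw hw'
    have h1 : ⟪At (Ac br J) a w + At (Ac br J) w a, b⟫_ℝ = 0 := by
      rw [h.C5 hab huni hQ0 ha hw hw', inner_zero_left]
    rw [inner_add_left, inner_At, inner_At] at h1
    simp only [S]; linarith
  have Sav : ∀ a ∈ dr br J, ∀ v ∈ dp br J, S a v = 0 := by
    intro a ha v hv
    obtain ⟨f, hf, c', hc, c'', hc', rfl⟩ := h.dp_decomp hv
    rw [Scomm, Sadd, Scomm f, Scomm (c' + J c''), Sae a ha f hf,
      Saa a ha _ (h.m_intro hc hc').1 (h.m_intro hc hc').2, add_zero]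
  have Sev : ∀ e ∈ de br J, ∀ v ∈ dp br J, S e v = 0 := by
    intro e he v hv
    obtain ⟨f, hf, c', hc, c'', hc', rfl⟩ := h.dp_decomp hv
    rw [Scomm, Sadd, Sadd, See f hf e he, Sae c' hc e he, SJ, Sae c'' hc' _ (h.J_de he)]
    ring
  show S u v = 0
  obtain ⟨e, he, a, ha, a', ha', rfl⟩ := h.dp_decomp hu
  rw [Sadd, Sadd, Sev e he v hv, Sav a ha v hv, SJ, Sav a' ha' _ (h.J_dp hv)]
  ring

theorem C7 {b b' : E} (hb : b ∈ (dp br J)ᗮ) (hb' : b' ∈ (dp br J)ᗮ) : Ac br J b b' = 0 := by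
  have h0 : ∀ b ∈ (dp br J)ᗮ, Ac br J b b = 0 := by
    intro b hb
    have h1 := hQ0 b
    rw [h.Qf_perp hb] at h1
    have h2 : ‖Ac br J b b‖ ^ 2 = 0 := by linarith
    exact norm_eq_zero.1 (pow_eq_zero_iff (two_ne_zero)|>.1 h2)
  have h1 : ∀ b ∈ (dp br J)ᗮ, ∀ b' ∈ (dp br J)ᗮ, Ac br J b b' + Ac br J b' b = 0 := by
    intro b hb b' hb'
    have := h0 (b + b') (Submodule.add_mem _ hb hb')
    simp only [map_add, LinearMap.add_apply, h0 b hb, h0 b' hb', zero_add, add_zero] at this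
    rw [add_comm]; exact this
  have h2 := h1 b hb b' hb'
  have h3 := h1 b hb (J b') (h.J_perp hb')
  rw [h.chern.A1, h.chern.A2, ← map_neg, ← map_add] at h3
  have h4 : Ac br J b b' + -Ac br J b' b = 0 := by
    apply h.chern.J_inj
    rw [h3, map_zero]
  have h5 : (2 : ℝ) • Ac br J b b' = 0 := by
    rw [two_smul]
    have : Ac br J b b' + Ac br J b b' = (Ac br J b b' + Ac br J b' b) +
        (Ac br J b b' + -Ac br J b' b) := by abel
    rw [this, h2, h4, add_zero]
  exact (smul_eq_zero.1 h5).resolve_left (by norm_num)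

theorem Q11_bp {b Y : E} (hb : b ∈ (dp br J)ᗮ) (hY : Y ∈ dp br J) :
    ‖At (Ac br J) b Y‖ ^ 2 + ‖Ac br J Y b‖ ^ 2 - ‖Ac br J b Y‖ ^ 2 = 0 := by
  have h1 := h.Q11_zero hQ0 b Y
  unfold Q11 at h1
  have e1 : ⟪Ac br J (Ac br J Y Y) b, b⟫_ℝ = 0 := h.perp_inner hb (h.A_mem_dp _ _)
  have e2 : ⟪Ac br J (Ac br J b Y) Y, b⟫_ℝ = 0 := h.perp_inner hb (h.A_mem_dp _ _)
  have e3 := h.C6 hab huni hQ0 hb (h.A_mem_dp Y b) hY
  rw [real_inner_self_eq_norm_sq, real_inner_comm] at e3
  rw [h.At_perp hb, h.C7 hab huni hQ0 hb hb, e1, e2] at h1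
  simp only [add_zero, map_zero, LinearMap.zero_apply, inner_zero_left] at h1
  linarith

theorem C8 {b Y : E} (hb : b ∈ (dp br J)ᗮ) (hY : Y ∈ dp br J) : Ac br J Y b = 0 := by
  let o := stdOrthonormalBasis ℝ (dp br J)
  have h1 := hs_compare (dp br J) o (Ac br J b) (fun w _ => h.A_mem_dp b w)
    (fun i => At (Ac br J) b (o i)) (by
      intro i j
      rw [inner_At])
  have h2 : ∑ i, (‖At (Ac br J) b (o i)‖ ^ 2 + ‖Ac br J (o i) b‖ ^ 2 -
      ‖Ac br J b (o i)‖ ^ 2) = 0 :=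
    Finset.sum_eq_zero fun i _ => h.Q11_bp hab huni hQ0 hb (o i).2
  rw [Finset.sum_sub_distrib, Finset.sum_add_distrib, h1] at h2
  have h3 : 0 ≤ ∑ i, ‖At (Ac br J) b (o i) - pr (dp br J) (At (Ac br J) b (o i))‖ ^ 2 :=
    Finset.sum_nonneg fun i _ => by positivity
  have h4 : 0 ≤ ∑ i, ‖Ac br J (o i) b‖ ^ 2 := Finset.sum_nonneg fun i _ => by positivity
  have h5 : ∑ i, ‖Ac br J (o i) b‖ ^ 2 = 0 := by linarith
  rw [Finset.sum_eq_zero_iff_of_nonneg (fun i _ => by positivity)] at h5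
  have h6 : ∀ i, Ac br J (o i) b = 0 := fun i =>
    norm_eq_zero.1 (pow_eq_zero_iff (two_ne_zero)|>.1 (h5 i (Finset.mem_univ i)))
  have h8 : Y = ∑ i, (o.repr ⟨Y, hY⟩ i) • (o i : E) := coe_sum_repr o hY
  rw [h8, map_sum, LinearMap.sum_apply]
  refine Finset.sum_eq_zero fun i _ => ?_
  rw [map_smul, LinearMap.smul_apply, h6 i, smul_zero]

theorem C9 {b : E} (hb : b ∈ (dp br J)ᗮ) (x : E) : Ac br J x b = 0 := by
  obtain ⟨p, hp, b', hb', rfl⟩ := h.perp_decomp x
  rw [map_add, LinearMap.add_apply, h.C8 hab huni hQ0 hb hp, h.C7 hab huni hQ0 hb' hb, add_zero]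

theorem C10 {b : E} (hb : b ∈ (dp br J)ᗮ) (x : E) : Ac br J b x ∈ de br J :=
  h.mem_de_of_swap (h.C9 hab huni hQ0 hb x)

theorem C11 {b v : E} (hb : b ∈ (dp br J)ᗮ) (hv : v ∈ dp br J) (hv' : v ∈ (de br J)ᗮ) :
    Ac br J b v = 0 := by
  have h1 := h.Q11_bp hab huni hQ0 hb hv
  rw [h.C8 hab huni hQ0 hb hv, norm_zero] at h1
  have h2 : At (Ac br J) b v = 0 := by
    refine ext_inner_right ℝ fun z => ?_
    rw [inner_At, inner_zero_left]
    exact Submodule.inner_left_of_mem_orthogonal (h.C10 hab huni hQ0 hb z) hv'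
  rw [h2, norm_zero] at h1
  have h3 : ‖Ac br J b v‖ ^ 2 = 0 := by linarith
  exact norm_eq_zero.1 (pow_eq_zero_iff (two_ne_zero)|>.1 h3)

/-- `A x` kills `deᗮ` -/
theorem C12a {v : E} (hv : v ∈ (de br J)ᗮ) (x : E) : Ac br J x v = 0 := by
  -- decompose v
  have key : ∀ v ∈ dp br J, v ∈ (de br J)ᗮ → Ac br J x v = 0 := by
    intro v hv hv'
    obtain ⟨p, hp, b, hb, rfl⟩ := h.perp_decomp x
    obtain ⟨e, he, a, ha, a', ha', rfl⟩ := h.dp_decomp hp
    rw [map_add, LinearMap.add_apply, h.C11 hab huni hQ0 hb hv hv', map_add, LinearMap.add_apply,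
      h.A_e_p hab he hv, h.C4 hab huni hQ0 (h.m_intro ha ha').1 (h.m_intro ha ha').2 hv hv',
      add_zero, add_zero]
  obtain ⟨p, hp, b, hb, rfl⟩ := h.perp_decomp v
  have hbe : b ∈ (de br J)ᗮ := Submodule.orthogonal_le h.de_le_dp hb
  have hpe : p ∈ (de br J)ᗮ := by
    have := Submodule.sub_mem _ hv hbe
    rwa [add_sub_cancel_right] at this
  rw [map_add, h.C9 hab huni hQ0 hb x, key p hp hpe, add_zero]

theorem C12b (x v : E) : Ac br J x v ∈ de br J := by
  have h1 : v = pr (de br J) v + (v - pr (de br J) v) := by abel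
  rw [h1, map_add, h.C12a hab huni hQ0 (sub_pr_mem _ _), add_zero]
  have hy : pr (de br J) v ∈ de br J := pr_mem _ _
  obtain ⟨p, hp, b, hb, rfl⟩ := h.perp_decomp x
  rw [map_add, LinearMap.add_apply]
  exact Submodule.add_mem _ (h.A_dp_e hab hp hy) (h.C10 hab huni hQ0 hb _)

theorem C12c {e : E} (he : e ∈ de br J) (v : E) : Ac br J e v = 0 := by
  have h1 : v = pr (de br J) v + (v - pr (de br J) v) := by abel
  rw [h1, map_add, h.C12a hab huni hQ0 (sub_pr_mem _ _), add_zero]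
  exact h.A_e_p hab he (h.de_le_dp (pr_mem _ _))

theorem At_deperp {v : E} (hv : v ∈ (de br J)ᗮ) (x : E) : At (Ac br J) x v = 0 := by
  refine ext_inner_right ℝ fun z => ?_
  rw [inner_At, inner_zero_left]
  exact Submodule.inner_left_of_mem_orthogonal (h.C12b hab huni hQ0 x z) hv

theorem At_e {e : E} (he : e ∈ de br J) : At (Ac br J) e = 0 := by
  unfold At
  have : Ac br J e = 0 := by
    ext v; exact h.C12c hab huni hQ0 he v
  rw [this, map_zero]

theorem C13 (x v : E) : ‖At (Ac br J) x v‖ = ‖Ac br J x v‖ := by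
  -- reduce to x ∈ deᗮ and v ∈ de
  have key : ∀ x ∈ (de br J)ᗮ, ∀ y ∈ de br J, ‖At (Ac br J) x y‖ = ‖Ac br J x y‖ := by
    intro x hx y hy
    have h1 := h.Q11_zero hQ0 x y
    unfold Q11 at h1
    rw [h.At_e hab huni hQ0 hy, h.C12c hab huni hQ0 hy, h.C12a hab huni hQ0 hx x,
      h.C12c hab huni hQ0 hy y, h.C12c hab huni hQ0 (h.C12b hab huni hQ0 x y)] at h1
    simp only [LinearMap.zero_apply, map_zero, norm_zero, inner_zero_left, add_zero] at h1
    have h2 : ‖At (Ac br J) x y‖ ^ 2 = ‖Ac br J x y‖ ^ 2 := by linarith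
    exact (sq_eq_sq₀ (norm_nonneg _) (norm_nonneg _)).1 h2
  have hx : x = pr (de br J) x + (x - pr (de br J) x) := by abel
  have hv : v = pr (de br J) v + (v - pr (de br J) v) := by abel
  have e1 : At (Ac br J) x v = At (Ac br J) (x - pr (de br J) x) (pr (de br J) v) := by
    conv_lhs => rw [hx, hv]
    rw [At_add, h.At_e hab huni hQ0 (pr_mem _ _), zero_add, map_add,
      h.At_deperp hab huni hQ0 (sub_pr_mem _ _), add_zero]
  have e2 : Ac br J x v = Ac br J (x - pr (de br J) x) (pr (de br J) v) := by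
    have e3 : Ac br J x (pr (de br J) v) = Ac br J (x - pr (de br J) x) (pr (de br J) v) := by
      rw [map_sub, LinearMap.sub_apply, h.C12c hab huni hQ0 (pr_mem _ _), sub_zero]
    rw [← e3]
    conv_lhs => rw [hv]
    rw [map_add, h.C12a hab huni hQ0 (sub_pr_mem _ _), add_zero]
  rw [e1, e2]
  exact key _ (sub_pr_mem _ _) _ (pr_mem _ _)

theorem normal (x v : E) : Ac br J x (At (Ac br J) x v) = At (Ac br J) x (Ac br J x v) := by
  have h1 : ∀ v w, ⟪At (Ac br J) x v, At (Ac br J) x w⟫_ℝ = ⟪Ac br J x v, Ac br J x w⟫_ℝ := by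
    intro v w
    have e1 := h.C13 hab huni hQ0 x (v + w)
    have e2 := h.C13 hab huni hQ0 x v
    have e3 := h.C13 hab huni hQ0 x w
    have e4 := norm_add_sq_real (At (Ac br J) x v) (At (Ac br J) x w)
    have e5 := norm_add_sq_real (Ac br J x v) (Ac br J x w)
    rw [← map_add, e1, e2, e3] at e4
    rw [← map_add] at e5
    linarith
  refine ext_inner_right ℝ fun w => ?_
  rw [inner_At, ← inner_At', h1]

theorem C14 (x y v : E) : Ac br J x (At (Ac br J) y v) = At (Ac br J) y (Ac br J x v) := by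
  have h1 : ∀ x y v, Ac br J x (At (Ac br J) y v) + Ac br J y (At (Ac br J) x v) =
      At (Ac br J) x (Ac br J y v) + At (Ac br J) y (Ac br J x v) := by
    intro x y v
    have e1 := h.normal hab huni hQ0 (x + y) v
    simp only [At_add, map_add, LinearMap.add_apply] at e1
    have e2 := h.normal hab huni hQ0 x v
    have e3 := h.normal hab huni hQ0 y v
    rw [e2, e3] at e1
    have e4 : At (Ac br J) x (Ac br J x v) + Ac br J y (At (Ac br J) x v) +
        (Ac br J x (At (Ac br J) y v) + At (Ac br J) y (Ac br J y v)) =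
        At (Ac br J) x (Ac br J x v) + At (Ac br J) x (Ac br J y v) +
        (At (Ac br J) y (Ac br J x v) + At (Ac br J) y (Ac br J y v)) := by
      rw [e1]; abel
    have e5 : (Ac br J x (At (Ac br J) y v) + Ac br J y (At (Ac br J) x v)) +
        (At (Ac br J) x (Ac br J x v) + At (Ac br J) y (Ac br J y v)) =
        (At (Ac br J) x (Ac br J y v) + At (Ac br J) y (Ac br J x v)) +
        (At (Ac br J) x (Ac br J x v) + At (Ac br J) y (Ac br J y v)) := by
      calc _ = At (Ac br J) x (Ac br J x v) + Ac br J y (At (Ac br J) x v) +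
        (Ac br J x (At (Ac br J) y v) + At (Ac br J) y (Ac br J y v)) := by abel
        _ = _ := e4
        _ = _ := by abel
    exact add_right_cancel e5
  have h2 := h1 x y v
  have h3 := h1 x (J y) v
  simp only [h.chern.A1, h.chern.A2, h.chern.At1, h.chern.At2, map_neg, ← sub_eq_add_neg] at h3
  rw [← map_sub] at h3
  have h4 : J (Ac br J x (At (Ac br J) y v) - Ac br J y (At (Ac br J) x v)) =
      J (At (Ac br J) y (Ac br J x v) - At (Ac br J) x (Ac br J y v)) := by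
    rw [h3, map_sub]; abel
  have h5 := h.chern.J_inj h4
  have h6 : (2 : ℝ) • Ac br J x (At (Ac br J) y v) = (2 : ℝ) • At (Ac br J) y (Ac br J x v) := by
    rw [two_smul, two_smul]
    calc _ = (Ac br J x (At (Ac br J) y v) + Ac br J y (At (Ac br J) x v)) +
          (Ac br J x (At (Ac br J) y v) - Ac br J y (At (Ac br J) x v)) := by abel
      _ = _ := by rw [h2, h5]; abel
  exact smul_right_injective _ (two_ne_zero' ℝ) h6

theorem C15 (x y : E) : br x y ∈ de br J := by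
  have h1 := h.link x y
  have h2 : (1 / 2 : ℝ) • (br x y + br (J x) (J y)) ∈ de br J := by
    rw [← h1]
    exact Submodule.sub_mem _ (h.C12b hab huni hQ0 _ _) (h.C12b hab huni hQ0 _ _)
  have h3 := Submodule.smul_mem _ (1 / 2 : ℝ) (h.sub_mem_de x y)
  have h4 : br x y = (1 / 2 : ℝ) • (br x y + br (J x) (J y)) +
      (1 / 2 : ℝ) • (br x y - br (J x) (J y)) := by
    rw [← smul_add]
    have : br x y + br (J x) (J y) + (br x y - br (J x) (J y)) = (2 : ℝ) • br x y := by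
      rw [two_smul]; abel
    rw [this, smul_smul]; norm_num
  rw [h4]
  exact Submodule.add_mem _ h2 h3

theorem C16 (x y v : E) : Ac br J x (Ac br J y v) = Ac br J y (Ac br J x v) := by
  have key : ∀ v ∈ de br J, Ac br J x (Ac br J y v) = Ac br J y (Ac br J x v) := by
    intro v hv
    have hcomm : ∀ x y, br x (br y v) = br y (br x v) := by
      intro x y
      rw [h.jacobi, hab _ (h.br_mem _ _) _ (h.de_le_dn hv), zero_add]
    have hf : ∀ x y, Ac br J x (Ac br J y v) = (1 / 4 : ℝ) •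
        (br x (br y v) + J (br (J x) (br y v)) + J (br x (br (J y) v)) -
          br (J x) (br (J y) v)) := by
      intro x y
      rw [Ac_apply br J y v, map_smul, map_add, h.chern.A2, Ac_apply, Ac_apply, map_smul, map_add,
        h.JJ]
      module
    rw [hf x y, hf y x, hcomm x y, hcomm (J x) y, hcomm x (J y), hcomm (J x) (J y)]
    congr 1
    abel
  have h1 : ∀ y, Ac br J y v = Ac br J y (pr (de br J) v) := by
    intro y
    have h2 : v = pr (de br J) v + (v - pr (de br J) v) := by abel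
    conv_lhs => rw [h2]
    rw [map_add, h.C12a hab huni hQ0 (sub_pr_mem _ _) y, add_zero]
  rw [h1 y, h1 x]
  exact key _ (pr_mem _ _)

/-- the curvature vanishes -/
theorem flat (x y v : E) :
    (Ac br J x - At (Ac br J) x) ((Ac br J y - At (Ac br J) y) v) -
      (Ac br J y - At (Ac br J) y) ((Ac br J x - At (Ac br J) x) v) -
      (Ac br J (br x y) - At (Ac br J) (br x y)) v = 0 := by
  have h1 := h.C12c hab huni hQ0 (h.C15 hab huni hQ0 x y) v
  have h2 := h.At_e hab huni hQ0 (h.C15 hab huni hQ0 x y)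
  have h3 : At (Ac br J) x (At (Ac br J) y v) = At (Ac br J) y (At (Ac br J) x v) := by
    refine ext_inner_right ℝ fun z => ?_
    rw [inner_At, inner_At, inner_At, inner_At, h.C16 hab huni hQ0]
  simp only [LinearMap.sub_apply, map_sub]
  rw [h1, h2, LinearMap.zero_apply, h3, h.C16 hab huni hQ0 x y, h.C14 hab huni hQ0 x y,
    h.C14 hab huni hQ0 y x]
  abel

end zero

end HermLie

end Pool.Agent.Lib.MP_a150d7_gt
end

section

/-!
Polarisation when the quartic form is nonnegative.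
-/

open Module
open scoped InnerProductSpace

namespace Pool.Agent.Lib.MP_a150d7_gt

variable {E : Type*} [NormedAddCommGroup E] [InnerProductSpace ℝ E] [FiniteDimensional ℝ E]

theorem At_smul (A : E →ₗ[ℝ] E →ₗ[ℝ] E) (t : ℝ) (x : E) : At A (t • x) = t • At A x := by
  unfold At; rw [map_smul, map_smulₛₗ]; rfl

theorem Qf_smul (A : E →ₗ[ℝ] E →ₗ[ℝ] E) (t : ℝ) (x : E) : Qf A (t • x) = t ^ 4 * Qf A x := by
  unfold Qf
  simp only [At_smul, map_smul, LinearMap.smul_apply, norm_smul, inner_smul_left,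
    inner_smul_right, conj_trivial, smul_smul]
  simp only [Real.norm_eq_abs, mul_pow, sq_abs, abs_mul, norm_smul]
  ring

theorem Q11_smul (A : E →ₗ[ℝ] E →ₗ[ℝ] E) (t : ℝ) (x y : E) :
    Q11 A x (t • y) = t ^ 2 * Q11 A x y := by
  unfold Q11
  simp only [At_smul, map_smul, LinearMap.smul_apply, inner_smul_left,
    inner_smul_right, conj_trivial, smul_smul, ← smul_add]
  simp only [norm_smul, Real.norm_eq_abs, mul_pow, sq_abs]
  ring

namespace ChernData
variable {A : E →ₗ[ℝ] E →ₗ[ℝ] E} {J : E →ₗ[ℝ] E} (h : ChernData A J)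
include h

/-- at a zero of a nonnegative quartic form the polarisation is nonnegative -/
theorem Q11_nonneg (hQn : ∀ x, 0 ≤ Qf A x) {x : E} (hx : Qf A x = 0) (y : E) :
    0 ≤ Q11 A x y := by
  by_contra hneg
  push Not at hneg
  have hq := hQn y
  set s := -Q11 A x y / (Qf A y + 1) with hs
  have hs0 : 0 < s := by rw [hs]; exact div_pos (by linarith) (by linarith)
  have h1 := h.polar x (Real.sqrt s • y)
  have h2 := hQn (x + Real.sqrt s • y)
  have h3 := hQn (x - Real.sqrt s • y)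
  have h4 := hQn (x + J (Real.sqrt s • y))
  have h5 := hQn (x - J (Real.sqrt s • y))
  rw [hx, Qf_smul, Q11_smul] at h1
  have h6 : Real.sqrt s ^ 2 = s := Real.sq_sqrt hs0.le
  have h7 : Real.sqrt s ^ 4 = s ^ 2 := by
    have : Real.sqrt s ^ 4 = (Real.sqrt s ^ 2) ^ 2 := by ring
    rw [this, h6]
  rw [h6, h7] at h1
  have h8 : 0 ≤ s * (s * Qf A y + Q11 A x y) := by nlinarith
  have h9 : 0 ≤ s * Qf A y + Q11 A x y := by
    by_contra h10
    push Not at h10
    have := mul_neg_of_pos_of_neg hs0 h10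
    linarith
  have h10 : s * (Qf A y + 1) = -Q11 A x y := by
    rw [hs, div_mul_cancel₀]; linarith
  nlinarith

theorem Q11_zero_on {P : Submodule ℝ E} (hPJ : ∀ x ∈ P, J x ∈ P) (hQP : ∀ x ∈ P, Qf A x = 0)
    {x y : E} (hx : x ∈ P) (hy : y ∈ P) : Q11 A x y = 0 := by
  have h1 := h.polar x y
  rw [hQP _ (Submodule.add_mem _ hx hy), hQP _ (Submodule.sub_mem _ hx hy),
    hQP _ (Submodule.add_mem _ hx (hPJ _ hy)), hQP _ (Submodule.sub_mem _ hx (hPJ _ hy)),
    hQP _ hx, hQP _ hy] at h1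
  linarith

end ChernData

/-- a nonnegative quadratic form of trace zero vanishes -/
theorem psd_trace_zero {P : Submodule ℝ E} {ι : Type*} [Fintype ι] (o : OrthonormalBasis ι ℝ P)
    (S T : E →ₗ[ℝ] E) (h0 : ∀ v ∈ P, 0 ≤ ‖S v‖ ^ 2 - ‖T v‖ ^ 2)
    (hs : ∑ i, (‖S (o i : E)‖ ^ 2 - ‖T (o i : E)‖ ^ 2) = 0) :
    ∀ v ∈ P, ‖S v‖ = ‖T v‖ := by
  rw [Finset.sum_eq_zero_iff_of_nonneg (fun i _ => h0 _ (o i).2)] at hs
  have h1 : ∀ i, ‖S (o i : E)‖ ^ 2 - ‖T (o i : E)‖ ^ 2 = 0 := fun i => hs i (Finset.mem_univ i)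
  have h2 : ∀ i, ∀ v ∈ P, ⟪S (o i : E), S v⟫_ℝ - ⟪T (o i : E), T v⟫_ℝ = 0 := by
    intro i v hv
    have key : ∀ t : ℝ, 0 ≤ 2 * t * (⟪S (o i : E), S v⟫_ℝ - ⟪T (o i : E), T v⟫_ℝ) +
        t ^ 2 * (‖S v‖ ^ 2 - ‖T v‖ ^ 2) := by
      intro t
      have h3 := h0 ((o i : E) + t • v) (Submodule.add_mem _ (o i).2 (Submodule.smul_mem _ _ hv))
      rw [map_add, map_add, map_smul, map_smul, norm_add_sq_real, norm_add_sq_real, norm_smul,
        norm_smul, mul_pow, mul_pow, inner_smul_right, inner_smul_right, Real.norm_eq_abs,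
        sq_abs] at h3
      have h4 := h1 i
      linarith
    set a := ⟪S (o i : E), S v⟫_ℝ - ⟪T (o i : E), T v⟫_ℝ with ha
    set b := ‖S v‖ ^ 2 - ‖T v‖ ^ 2 with hb
    have hb0 : 0 ≤ b := h0 v hv
    have h5 := key (-a / (b + 1))
    have hb1 : 0 < b + 1 := by linarith
    have h6 : 2 * (-a / (b + 1)) * a + (-a / (b + 1)) ^ 2 * b =
        -(a ^ 2 * (b + 2)) / (b + 1) ^ 2 := by
      field_simp
      ring
    rw [h6] at h5
    have h7 : 0 ≤ -(a ^ 2 * (b + 2)) := by
      by_contra h8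
      push Not at h8
      have := div_neg_of_neg_of_pos h8 (pow_pos hb1 2)
      linarith
    have h8 : a ^ 2 * (b + 2) ≤ 0 := by linarith
    have h9 : a ^ 2 = 0 := by nlinarith [sq_nonneg a]
    exact pow_eq_zero_iff (two_ne_zero)|>.1 h9
  intro v hv
  have h3 : v = ∑ i, (o.repr ⟨v, hv⟩ i) • (o i : E) := by
    have := congrArg Subtype.val (o.sum_repr ⟨v, hv⟩)
    simp only [Submodule.coe_sum, Submodule.coe_smul] at this
    exact this.symm
  have h4 : ⟪S v, S v⟫_ℝ - ⟪T v, T v⟫_ℝ = 0 := by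
    have e1 : ⟪S v, S v⟫_ℝ = ∑ i, (o.repr ⟨v, hv⟩ i) * ⟪S (o i : E), S v⟫_ℝ := by
      conv_lhs => rw [show S v = ∑ i, (o.repr ⟨v, hv⟩ i) • S (o i : E) by
        conv_lhs => rw [h3, map_sum]
        simp only [map_smul]]
      rw [sum_inner]
      refine Finset.sum_congr rfl fun i _ => ?_
      rw [inner_smul_left, conj_trivial]
      congr 2
      conv_rhs => rw [h3, map_sum]
      simp only [map_smul]
    have e2 : ⟪T v, T v⟫_ℝ = ∑ i, (o.repr ⟨v, hv⟩ i) * ⟪T (o i : E), T v⟫_ℝ := by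
      conv_lhs => rw [show T v = ∑ i, (o.repr ⟨v, hv⟩ i) • T (o i : E) by
        conv_lhs => rw [h3, map_sum]
        simp only [map_smul]]
      rw [sum_inner]
      refine Finset.sum_congr rfl fun i _ => ?_
      rw [inner_smul_left, conj_trivial]
      congr 2
      conv_rhs => rw [h3, map_sum]
      simp only [map_smul]
    rw [e1, e2, ← Finset.sum_sub_distrib]
    refine Finset.sum_eq_zero fun i _ => ?_
    rw [← mul_sub, h2 i v hv, mul_zero]
  rw [real_inner_self_eq_norm_sq, real_inner_self_eq_norm_sq] at h4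
  exact (sq_eq_sq₀ (norm_nonneg _) (norm_nonneg _)).1 (by linarith)

end Pool.Agent.Lib.MP_a150d7_gt
end
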