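import Pool.Agent.Lib.MP_a150d7_gt.SMain

section

/-!
The Levi-Civita connection: its holomorphic sectional curvature is the Chern holomorphic sectional
curvature minus a square.
-/

set_option linter.unusedSectionVars false

open Module
open scoped InnerProductSpace

namespace Pool.Agent.Lib.MP_a150d7_gt

variable {E : Type*} [NormedAddCommGroup E] [InnerProductSpace ℝ E] [FiniteDimensional ℝ E]

/-- the transpose of `ad x` -/
noncomputable def adt (br : E →ₗ[ℝ] E →ₗ[ℝ] E) (x : E) : E →ₗ[ℝ] E := LinearMap.adjoint (br x)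

theorem inner_adt (br : E →ₗ[ℝ] E →ₗ[ℝ] E) (x y z : E) : ⟪adt br x y, z⟫_ℝ = ⟪y, br x z⟫_ℝ :=
  LinearMap.adjoint_inner_left _ _ _

theorem inner_adt' (br : E →ₗ[ℝ] E →ₗ[ℝ] E) (x y z : E) : ⟪y, adt br x z⟫_ℝ = ⟪br x y, z⟫_ℝ :=
  LinearMap.adjoint_inner_right _ _ _

/-- the vector `θ x` -/
noncomputable def th (br : E →ₗ[ℝ] E →ₗ[ℝ] E) (J : E →ₗ[ℝ] E) (x : E) : E :=
  Ac br J x x + (1 / 2 : ℝ) • (adt br x x + adt br (J x) (J x))

namespace HermLie

variable {br : E →ₗ[ℝ] E →ₗ[ℝ] E} {J : E →ₗ[ℝ] E} (h : HermLie br J)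
include h

/-- Koszul's formula -/
theorem koszul {D : E →ₗ[ℝ] E →ₗ[ℝ] E} (hm : ∀ x y z, ⟪D x y, z⟫_ℝ + ⟪y, D x z⟫_ℝ = 0)
    (hT : ∀ x y, D x y - D y x = br x y) (x y : E) :
    D x y = (1 / 2 : ℝ) • (br x y - adt br y x - adt br x y) := by
  refine ext_inner_right ℝ fun z => ?_
  rw [inner_smul_left, inner_sub_left, inner_sub_left, inner_adt, inner_adt]
  simp only [conj_trivial]
  have t1 : ⟪br x y, z⟫_ℝ = ⟪D x y, z⟫_ℝ - ⟪D y x, z⟫_ℝ := by rw [← hT, inner_sub_left]
  have t2 : ⟪x, br y z⟫_ℝ = ⟪x, D y z⟫_ℝ - ⟪x, D z y⟫_ℝ := by rw [← hT, inner_sub_right]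
  have t3 : ⟪y, br x z⟫_ℝ = ⟪y, D x z⟫_ℝ - ⟪y, D z x⟫_ℝ := by rw [← hT, inner_sub_right]
  have m1 := hm x y z
  have m2 := hm y x z
  have m3 := hm z x y
  rw [real_inner_comm] at m3
  rw [t1, t2, t3]
  linarith

theorem At_self (x : E) : At (Ac br J) x x = (1 / 2 : ℝ) • (adt br x x - adt br (J x) (J x)) := by
  refine ext_inner_right ℝ fun z => ?_
  rw [inner_At, Ac_apply, inner_smul_right, inner_add_right, inner_smul_left, inner_sub_left,
    inner_adt, inner_adt, h.innerJ]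
  simp only [conj_trivial]
  ring

theorem At_J (x : E) : J (At (Ac br J) x x) =
    (1 / 2 : ℝ) • (adt br (J x) x + adt br x (J x)) := by
  rw [← h.chern.At2]
  refine ext_inner_right ℝ fun z => ?_
  rw [inner_At, Ac_apply, inner_smul_right, inner_add_right, inner_smul_left, inner_add_left,
    inner_adt, inner_adt, h.isoJ]
  simp only [conj_trivial]
  ring

/-- the Riemannian holomorphic sectional curvature -/
theorem lc_hol {D : E →ₗ[ℝ] E →ₗ[ℝ] E} (hm : ∀ x y z, ⟪D x y, z⟫_ℝ + ⟪y, D x z⟫_ℝ = 0)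
    (hT : ∀ x y, D x y - D y x = br x y) (x : E) :
    ⟪D x (D (J x) (J x)) - D (J x) (D x (J x)) - D (br x (J x)) (J x), x⟫_ℝ =
      2 * Qf (Ac br J) x - ‖th br J x‖ ^ 2 := by
  set a := adt br x x with ha
  set b := adt br (J x) (J x) with hb
  set p := adt br (J x) x with hp
  set r := adt br x (J x) with hr
  set V := Ac br J x x with hV
  have k := h.koszul hm hT
  have hW : br x (J x) = (2 : ℝ) • J V := by
    rw [hV, Ac_apply, h.self, zero_add, map_smul, h.JJ, smul_smul, h.skew (J x) x, neg_neg]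
    norm_num
  have d1 : D x x = -a := by
    rw [k, h.self, ← ha]; module
  have d2 : D (J x) (J x) = -b := by
    rw [k, h.self, ← hb]; module
  have d3 : D x (J x) = (1 / 2 : ℝ) • ((2 : ℝ) • J V - (p + r)) := by
    rw [k, hW, ← hp, ← hr]; module
  have d4 : D (J x) x = (1 / 2 : ℝ) • (-((2 : ℝ) • J V) - (p + r)) := by
    rw [k, h.skew (J x) x, hW, ← hp, ← hr]; module
  have hU : p + r = J (a - b) := by
    have h1 := h.At_J x
    rw [h.At_self, map_smul, ← ha, ← hb, ← hp, ← hr] at h1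
    have h2 := smul_right_injective E (show (1 / 2 : ℝ) ≠ 0 by norm_num) h1
    exact h2.symm
  have s1 : ⟪D x (D (J x) (J x)), x⟫_ℝ = -⟪a, b⟫_ℝ := by
    have := hm x (D (J x) (J x)) x
    rw [d1, d2, inner_neg_right, inner_neg_left, neg_neg, real_inner_comm a b] at this
    rw [d2]
    linarith
  have s2 : ⟪D (J x) (D x (J x)), x⟫_ℝ = ‖V‖ ^ 2 - (1 / 4) * ‖p + r‖ ^ 2 := by
    have e1 := hm (J x) (D x (J x)) x
    have e2 : ⟪D x (J x), D (J x) x⟫_ℝ = (1 / 4) * ‖p + r‖ ^ 2 - ‖V‖ ^ 2 := by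
      rw [d3, d4, inner_smul_left, inner_smul_right]
      simp only [inner_sub_left, inner_sub_right, inner_neg_right, conj_trivial, inner_smul_left,
        inner_smul_right]
      rw [real_inner_comm (J V) (p + r), real_inner_self_eq_norm_sq, real_inner_self_eq_norm_sq,
        h.chern.normJ]
      ring
    linarith
  have s3 : ⟪D (br x (J x)) (J x), x⟫_ℝ = -⟪J V, p⟫_ℝ + 2 * ‖V‖ ^ 2 + ⟪J V, r⟫_ℝ := by
    rw [k, hW]
    simp only [map_smul, LinearMap.smul_apply, inner_smul_left, inner_sub_left, conj_trivial]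
    rw [inner_adt]
    have e1 : ⟪br (J V) (J x), x⟫_ℝ = -⟪J V, p⟫_ℝ := by
      rw [h.skew, inner_neg_left, ← inner_adt' br (J x) (J V) x]
    have e2 : ⟪J V, br (J x) x⟫_ℝ = -(2 * ‖V‖ ^ 2) := by
      rw [h.skew (J x) x, hW, inner_neg_right, inner_smul_right,
        real_inner_self_eq_norm_sq, h.chern.normJ]
    have e3 : ⟪adt br ((2 : ℝ) • J V) (J x), x⟫_ℝ = -(2 * ⟪J V, r⟫_ℝ) := by
      rw [inner_adt, map_smul, LinearMap.smul_apply, inner_smul_right, h.skew (J V) x,
        inner_neg_right, real_inner_comm, ← inner_adt' br x (J V) (J x)]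
      ring
    rw [e1, e2, e3]
    ring
  have s4 : 2 * ⟪Ac br J V x, x⟫_ℝ = -⟪V, a⟫_ℝ + ⟪J V, r⟫_ℝ := by
    rw [Ac_apply, inner_smul_left, inner_add_left]
    have e1 : ⟪br V x, x⟫_ℝ = -⟪V, a⟫_ℝ := by
      rw [h.skew, inner_neg_left, ← inner_adt' br x V x]
    have e2 : ⟪J (br (J V) x), x⟫_ℝ = ⟪J V, r⟫_ℝ := by
      rw [h.innerJ, h.skew (J V) x, inner_neg_left, neg_neg, ← inner_adt' br x (J V) (J x)]
    rw [e1, e2]
    simp only [conj_trivial]
    ring
  have s5 : ‖At (Ac br J) x x‖ ^ 2 = (1 / 4) * ‖a - b‖ ^ 2 := by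
    rw [h.At_self, ← ha, ← hb, norm_smul, mul_pow]
    norm_num
  have s6 : ‖p + r‖ ^ 2 = ‖a - b‖ ^ 2 := by rw [hU, h.chern.normJ]
  have s7 : ⟪J V, p⟫_ℝ + ⟪J V, r⟫_ℝ = ⟪V, a⟫_ℝ - ⟪V, b⟫_ℝ := by
    rw [← inner_add_right, hU, h.isoJ, inner_sub_right]
  have s8 : ‖th br J x‖ ^ 2 = ‖V‖ ^ 2 + (⟪V, a⟫_ℝ + ⟪V, b⟫_ℝ) + (1 / 4) * ‖a + b‖ ^ 2 := by
    unfold th
    rw [← ha, ← hb, ← hV, norm_add_sq_real, inner_smul_right, inner_add_right, norm_smul, mul_pow]
    norm_num
    ring
  have s9 := norm_add_sq_real a b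
  have s10 := norm_sub_sq_real a b
  rw [inner_sub_left, inner_sub_left, s1, s2, s3]
  unfold Qf
  rw [← hV, s5, s8, s6]
  linear_combination (2 : ℝ) * s4 + s7 + (1 / 4) * s9 - (1 / 4) * s10

/-- if `θ = 0` then the Chern torsion vanishes -/
theorem torsion_zero (hth : ∀ x, th br J x = 0) (x z : E) :
    (Ac br J x z - At (Ac br J) x z) - (Ac br J z x - At (Ac br J) z x) = br x z := by
  let T : E → E → E := fun x z =>
    -At (Ac br J) x z + At (Ac br J) z x - (1 / 2 : ℝ) • (br x z - br (J x) (J z))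
  have hTz : ∀ x z, T x z = (Ac br J x z - At (Ac br J) x z) -
      (Ac br J z x - At (Ac br J) z x) - br x z := by
    intro x z
    have h1 := h.link x z
    have h2 : Ac br J x z = Ac br J z x + (1 / 2 : ℝ) • (br x z + br (J x) (J z)) := by
      rw [← h1]; abel
    rw [h2]
    module
  have hTJ2 : ∀ x z, T x (J z) = J (T x z) := by
    intro x z
    have h1 := h.integ' x z
    have h2 : J (br x z - br (J x) (J z)) = br (J x) z + br x (J z) := by
      have h3 : br x z - br (J x) (J z) = -J (br (J x) z + br x (J z)) := by rw [h1]; abel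
      rw [h3, map_neg, h.JJ, neg_neg]
    simp only [T, map_sub, map_add, map_neg, map_smul]
    rw [h.chern.At2, h.chern.At1, h.JJ, map_neg, ← map_sub, h2]
    module
  have hTJ1 : ∀ x z, T (J x) z = J (T x z) := by
    intro x z
    have h1 := h.integ' x z
    have h2 : J (br x z - br (J x) (J z)) = br (J x) z + br x (J z) := by
      have h3 : br x z - br (J x) (J z) = -J (br (J x) z + br x (J z)) := by rw [h1]; abel
      rw [h3, map_neg, h.JJ, neg_neg]
    simp only [T, map_sub, map_add, map_neg, map_smul]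
    rw [h.chern.At2, h.chern.At1, h.JJ, map_neg, LinearMap.neg_apply, ← map_sub, h2]
    module
  have key : ∀ x z, ⟪T x z, x⟫_ℝ = 0 := by
    intro x z
    have h1 : ⟪z, th br J x⟫_ℝ = 0 := by rw [hth, inner_zero_right]
    unfold th at h1
    rw [inner_add_right, inner_smul_right, inner_add_right, inner_adt', inner_adt'] at h1
    have h2 := h.At_J x
    have h3 := h.At_self x
    have e1 : ⟪J z, J (At (Ac br J) x x)⟫_ℝ = (1 / 2) * (⟪br (J x) (J z), x⟫_ℝ +
        ⟪br x (J z), J x⟫_ℝ) := by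
      rw [h2, inner_smul_right, inner_add_right, inner_adt', inner_adt']
    have e2 : ⟪z, At (Ac br J) x x⟫_ℝ = (1 / 2) * (⟪br x z, x⟫_ℝ - ⟪br (J x) z, J x⟫_ℝ) := by
      rw [h3, inner_smul_right, inner_sub_right, inner_adt', inner_adt']
    rw [h.isoJ, e2] at e1
    show ⟪-At (Ac br J) x z + At (Ac br J) z x - (1 / 2 : ℝ) • (br x z - br (J x) (J z)), x⟫_ℝ = 0
    rw [inner_sub_left, inner_add_left, inner_neg_left, inner_At, inner_At, inner_smul_left,
      inner_sub_left]
    have e3 : ⟪x, Ac br J z x⟫_ℝ = (1 / 2) * (-⟪br x z, x⟫_ℝ + ⟪br x (J z), J x⟫_ℝ) := by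
      rw [Ac_apply, inner_smul_right, inner_add_right, h.skew z x, inner_neg_right,
        real_inner_comm (br x z) x, real_inner_comm (J (br (J z) x)) x, h.innerJ,
        h.skew (J z) x, inner_neg_left, neg_neg]
    rw [e3]
    simp only [conj_trivial]
    linarith
  have key2 : ∀ x z, ⟪J (T x z), x⟫_ℝ = 0 := by
    intro x z
    rw [← hTJ2]; exact key _ _
  have hadd : ∀ x y z, T (x + y) z = T x z + T y z := by
    intro x y z
    simp only [T, At_add, map_add, LinearMap.add_apply]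
    module
  have fin : ∀ x y z, ⟪T x z, y⟫_ℝ = 0 := by
    intro x y z
    have p1 : ⟪T x z, J y⟫_ℝ + ⟪J (T y z), x⟫_ℝ = 0 := by
      have := key (x + J y) z
      rw [hadd, hTJ1, inner_add_left, inner_add_right, inner_add_right, key x z] at this
      have h2 : ⟪J (T y z), J y⟫_ℝ = 0 := by rw [h.isoJ]; exact key y z
      rw [h2] at this
      linarith
    have p2 : ⟪J (T x z), y⟫_ℝ + ⟪J (T y z), x⟫_ℝ = 0 := by
      have := key2 (x + y) z
      rw [hadd, map_add, inner_add_left, inner_add_right, inner_add_right, key2 x z,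
        key2 y z] at this
      linarith
    have p3 : ⟪J (T x z), J y⟫_ℝ + ⟪J (T (J y) z), x⟫_ℝ = 0 := by
      have := key2 (x + J y) z
      rw [hadd, map_add, inner_add_left, inner_add_right, inner_add_right, key2 x z,
        key2 (J y) z] at this
      linarith
    have p4 : ⟪T x z, y⟫_ℝ + ⟪T y z, x⟫_ℝ = 0 := by
      have := key (x + y) z
      rw [hadd, inner_add_left, inner_add_right, inner_add_right, key x z, key y z] at this
      linarith
    rw [h.isoJ, hTJ1, h.JJ, inner_neg_left] at p3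
    linarith
  have h1 : T x z = 0 := inner_self_eq_zero.1 (fin x (T x z) z)
  rw [hTz] at h1
  exact sub_eq_zero.1 h1

end HermLie

end Pool.Agent.Lib.MP_a150d7_gt
end

section

/-!
Constant Riemannian holomorphic sectional curvature.
-/

set_option linter.unusedSectionVars false

open Module
open scoped InnerProductSpace

namespace Pool.Agent.Lib.MP_a150d7_gt

variable {E : Type*} [NormedAddCommGroup E] [InnerProductSpace ℝ E] [FiniteDimensional ℝ E]

namespace HermLie

variable {br : E →ₗ[ℝ] E →ₗ[ℝ] E} {J : E →ₗ[ℝ] E} (h : HermLie br J)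
include h

theorem lc_main [Nontrivial E]
    (hNS : ∀ k, Jch br J (k + 1) = Jch br J k → Jch br J k ≠ ⊥ →
      ww br J (Jch br J k) ≠ Jch br J k)
    {D : E →ₗ[ℝ] E →ₗ[ℝ] E}
    (hm : ∀ x y z, ⟪D x y, z⟫_ℝ + ⟪y, D x z⟫_ℝ = 0)
    (hT : ∀ x y, D x y - D y x = br x y)
    {c : ℝ} (hsign : 0 ≤ c ∨ ∃ y, y ≠ 0 ∧ ∀ z, br y z = 0)
    (hc : ∀ x, ⟪D x (D (J x) (J x)) - D (J x) (D x (J x)) - D (br x (J x)) (J x), x⟫_ℝ =
      c * ‖x‖ ^ 4) :
    c = 0 ∧ ∀ x y z, D x (D y z) - D y (D x z) - D (br x y) z = 0 := by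
  have hQ : ∀ x, 2 * Qf (Ac br J) x = c * ‖x‖ ^ 4 + ‖th br J x‖ ^ 2 := by
    intro x
    have h1 := hc x
    rw [h.lc_hol hm hT] at h1
    linarith
  have hc1 : 0 ≤ c := by
    rcases hsign with h1 | ⟨y, hy0, hy⟩
    · exact h1
    · have h1 : Ac br J y y = 0 := by
        rw [Ac_apply, h.self, h.skew (J y) y, hy, neg_zero, map_zero, add_zero, smul_zero]
      have h2 : adt br y y = 0 := by
        refine ext_inner_right ℝ fun z => ?_
        rw [inner_adt, hy, inner_zero_right, inner_zero_left]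
      have h3 : ‖At (Ac br J) y y‖ ^ 2 = (1 / 4) * ‖adt br (J y) (J y)‖ ^ 2 := by
        rw [h.At_self, h2, zero_sub, norm_smul, norm_neg, mul_pow]
        norm_num
      have h4 : ‖th br J y‖ ^ 2 = (1 / 4) * ‖adt br (J y) (J y)‖ ^ 2 := by
        unfold th
        rw [h1, h2, zero_add, zero_add, norm_smul, mul_pow]
        norm_num
      have h5 := hQ y
      unfold Qf at h5
      rw [h1, map_zero, LinearMap.zero_apply, norm_zero, inner_zero_left, h3, h4] at h5
      by_contra hneg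
      push Not at hneg
      have hpos : 0 < ‖y‖ ^ 4 := by positivity
      have h6 : c * ‖y‖ ^ 4 < 0 := mul_neg_of_neg_of_pos hneg hpos
      have h7 : 0 ≤ ‖adt br (J y) (J y)‖ ^ 2 := by positivity
      linarith
  have hQn : ∀ x, 0 ≤ Qf (Ac br J) x := by
    intro x
    have h1 := hQ x
    have h2 : 0 ≤ c * ‖x‖ ^ 4 := by positivity
    have h3 : 0 ≤ ‖th br J x‖ ^ 2 := by positivity
    linarith
  have hQz := h.Qf_zero hNS hQn
  have hc0 : c = 0 := by
    obtain ⟨x, hx⟩ := exists_ne (0 : E)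
    have h1 := hQ x
    rw [hQz] at h1
    have h2 : 0 < ‖x‖ ^ 4 := by positivity
    have h3 : 0 ≤ ‖th br J x‖ ^ 2 := by positivity
    by_contra hne
    have h4 : 0 < c := lt_of_le_of_ne hc1 (Ne.symm hne)
    have h5 := mul_pos h4 h2
    linarith
  have hth : ∀ x, th br J x = 0 := by
    intro x
    have h1 := hQ x
    rw [hQz, hc0] at h1
    have h2 : ‖th br J x‖ ^ 2 = 0 := by linarith
    exact norm_eq_zero.1 (pow_eq_zero_iff (two_ne_zero) |>.1 h2)
  have hD : ∀ x z, D x z = (Ac br J x - At (Ac br J) x) z := by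
    -- both connections are metric and torsion-free
    let B : E → E → E := fun x z => Ac br J x z - At (Ac br J) x z
    have hBm : ∀ x y z, ⟪B x y, z⟫_ℝ + ⟪y, B x z⟫_ℝ = 0 := by
      intro x y z
      simp only [B]
      rw [inner_sub_left, inner_sub_right, inner_At, inner_At']
      ring
    have hBT : ∀ x z, B x z - B z x = br x z := h.torsion_zero hth
    have key : ∀ x y z, ⟪D x y - B x y, z⟫_ℝ = 0 := by
      have t1 : ∀ x y, D x y - B x y = D y x - B y x := by
        intro x y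
        have e1 := hT x y
        have e2 := hBT x y
        rw [← e2] at e1
        rw [sub_eq_iff_eq_add] at e1
        rw [e1]; abel
      have t2 : ∀ x y z, ⟪D x y - B x y, z⟫_ℝ = -⟪D x z - B x z, y⟫_ℝ := by
        intro x y z
        have e1 := hm x y z
        have e2 := hBm x y z
        have e3 : ⟪D x y - B x y, z⟫_ℝ + ⟪y, D x z - B x z⟫_ℝ = 0 := by
          rw [inner_sub_left (D x y) (B x y) z, inner_sub_right y (D x z) (B x z)]
          linarith
        have e4 := real_inner_comm (D x z - B x z) y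
        linarith
      intro x y z
      have e1 := t2 x y z
      have e2 := t2 z x y
      have e3 := t2 y z x
      rw [t1 x z] at e1
      rw [t1 z y] at e2
      rw [t1 y x] at e3
      linarith
    intro x z
    rw [LinearMap.sub_apply]
    have := inner_self_eq_zero.1 (key x z (D x z - B x z))
    exact sub_eq_zero.1 this
  obtain ⟨s1, s2⟩ := h.S_up hNS hQn
  refine ⟨hc0, fun x y z => ?_⟩
  rw [hD x, hD y z, hD y, hD x z, hD (br x y)]
  exact h.flat_of_S s1 s2 x y z

end HermLie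

end Pool.Agent.Lib.MP_a150d7_gt
end
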